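import Pool.Agent.Work.MP_8f87b2_h99.Ty9
import Pool.Agent.Work.MP_8f87b2_mid.DisC
import Pool.Agent.Work.MP_8f87b2_h27.DisKm

/-!
# MP_8f87b2_co, matrix rows W-E-JV, W-L-JV, W-K-JV, W-Cr-JV, W-Cl-JV, W-JV-JV

`JV = Is9 () () S` (nine words, `P = Q = e`), general `S` without a part 1 (`NB1 S`).
-/

set_option autoImplicit false

namespace Pool.OddHC

open Finset Equiv BinaryTree Pool.Agent.Work.MP_8f87b2_co

namespace JVW

variable {k : ℕ} {F F' : Set (Cyc k)} {g g' : DG k} {S T X : BinaryTree Unit}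

/-- no component `()` -/
def NBc (t : BinaryTree Unit) : Prop := ∀ A ∈ comps t, A ≠ .nil

theorem NBc.head {t A : BinaryTree Unit} {L : List (BinaryTree Unit)} (h : NBc t)
    (e : comps t = A :: L) : A ≠ .nil := h A (by rw [e]; simp)

theorem NBc.last {t A : BinaryTree Unit} {L : List (BinaryTree Unit)} (h : NBc t)
    (e : comps t = L ++ [A]) : A ≠ .nil := h A (by rw [e]; simp)

/-- the components of the second part of `sq S` are components of `S` -/
theorem sq_comps : ∀ S : BinaryTree Unit, ∀ A ∈ comps (Tsq.sq S).2, A ∈ comps S := by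
  intro S
  induction S with
  | nil => intro A hA; exact hA
  | node _ A C _ ih =>
    intro D hD
    by_cases h : Tsq.ht A + 1 < Tsq.ht C
    · have hC : C ≠ .nil := by
        rintro rfl
        simp [Tsq.ht] at h
      obtain ⟨Xx, Y, hX⟩ : ∃ Xx Y, (Tsq.sq C).1 = Xx △ Y := by
        cases hS : (Tsq.sq C).1 with
        | nil => exact absurd hS (Tsq.sq_ne hC)
        | node _ Xx Y => exact ⟨Xx, Y, rfl⟩
      rw [Tsq.sq_lt h hX] at hD
      rw [comps_node]
      exact List.mem_cons_of_mem _ (ih D hD)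
    · have e : (Tsq.sq (A △ C)).2 = C := by
        rw [Tsq.sq_node, if_neg h]
      rw [e] at hD
      rw [comps_node]
      exact List.mem_cons_of_mem _ hD

theorem NBc.sq2 (h : NBc S) : NBc (Tsq.sq S).2 := fun A hA => h A (sq_comps S A hA)

theorem comps_xT (S : BinaryTree Unit) : comps (xT S) = (Tsq.sq S).1 :: comps (Tsq.sq S).2 := by
  rw [xT_sq, comps_node]

/-- the new words of a JV gadget (by their components) -/
def NewW (S w : BinaryTree Unit) : Prop :=
  comps w = comps S ++ [.nil △ .nil] ∨ comps w = (.nil △ .nil) :: comps S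

/-- the old words of a JV gadget (by their components) -/
def OldW (S w : BinaryTree Unit) : Prop :=
  comps w = [.nil △ S] ∨ comps w = [S △ .nil] ∨ comps w = [app S (.nil △ .nil)] ∨
    comps w = [S, .nil] ∨ comps w = [(Tsq.sq S).1 △ (Tsq.sq S).2] ∨
    comps w = (Tsq.sq S).1 :: (comps (Tsq.sq S).2 ++ [.nil]) ∨
    comps w = .nil :: (Tsq.sq S).1 :: comps (Tsq.sq S).2

theorem words (h : Is9 .nil .nil S F g) : ∀ w ∈ g.B, (cyc w ∈ F ∧ NewW S w.1) ∨ OldW S w.1 := by
  intro w hw
  obtain ⟨i, hi, e, h2⟩ := h.words w hw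
  have a1 : ∀ X : BinaryTree Unit, app .nil X = X := fun _ => rfl
  interval_cases i
  · left
    refine ⟨h2 (by norm_num), Or.inl ?_⟩
    rw [e, w9L, comps_w1]
    rfl
  · left
    refine ⟨h2 (by norm_num), Or.inr ?_⟩
    rw [e, w9L, comps_w1]
    rfl
  · right; left
    rw [e]; rfl
  · right; right; left
    rw [e]; rfl
  · right; right; right; left
    rw [e]; rfl
  · right; right; right; right; left
    rw [e]; rfl
  · right; right; right; right; right; left
    rw [e, xT_sq]; rfl
  · right; right; right; right; right; right; left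
    rw [e, w9L, comps_w1, a1, comps_xT]
    rfl
  · right; right; right; right; right; right; right
    rw [e]
    change comps (w1 .nil .nil (app .nil (xT S))) = _
    rw [comps_w1, a1, comps_xT]
    rfl

/-- the height of `S` -/
theorem ht3 (h : Is9 .nil .nil S F g) : 2 ≤ ht S := by
  obtain ⟨w, h1, _⟩ := h
  have := h1.hP
  rw [ht] at this
  omega

theorem ne (h : Is9 .nil .nil S F g) : S ≠ .nil := ne_of_ht (h := 1) (ht3 h)

theorem cne {t : BinaryTree Unit} (h : t ≠ .nil) : ∃ A L, comps t = A :: L := by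
  cases t with
  | nil => exact absurd rfl h
  | node _ A B => exact ⟨A, comps B, rfl⟩

theorem fstA {t A : BinaryTree Unit} {L : List (BinaryTree Unit)} (hf : ∀ V, t ≠ .nil △ V)
    (hR : t ≠ .nil) (eA : comps t = A :: L) : A ≠ .nil := by
  intro e0
  cases t with
  | nil => exact hR rfl
  | node _ C D =>
    rw [comps_node, List.cons.injEq] at eA
    apply hf D
    rw [eA.1, e0]

theorem fstN {t : BinaryTree Unit} {L : List (BinaryTree Unit)}
    (eA : comps t = .nil :: L) : ∃ V, t = .nil △ V ∧ comps V = L := by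
  cases t with
  | nil => cases eA
  | node _ C D =>
    rw [comps_node, List.cons.injEq] at eA
    exact ⟨D, by rw [eA.1], eA.2⟩

theorem cne' {t : BinaryTree Unit} (h : t ≠ .nil) : ∃ L A, comps t = L ++ [A] := by
  have h1 := comps_ne h
  exact ⟨(comps t).dropLast, (comps t).getLast h1, (List.dropLast_append_getLast h1).symm⟩

/-- the first part of `sq S` has the height of `S` -/
theorem sq1 (h : 2 ≤ ht S) : ht (Tsq.sq S).1 = ht S ∧ (Tsq.sq S).1 ≠ .nil ∧
    (Tsq.sq S).1 ≠ .nil △ .nil := by
  have h0 : S ≠ .nil := ne_of_ht (h := 1) h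
  have h1 := (ht_sq h0).1
  refine ⟨h1, ?_, ?_⟩
  · intro e
    rw [e, ht] at h1
    omega
  · intro e
    rw [e] at h1
    have : ht (.nil △ .nil : BinaryTree Unit) = 1 := rfl
    omega

/-! ### The shapes of the old words -/

theorem last_X (hS : NBc S) (h2 : 2 ≤ ht S) {L : List (BinaryTree Unit)} :
    (Tsq.sq S).1 :: comps (Tsq.sq S).2 ≠ L ++ [.nil] := by
  intro e
  have h3 : (.nil : BinaryTree Unit) ∈ (Tsq.sq S).1 :: comps (Tsq.sq S).2 := by
    rw [e]; simp
  rcases List.mem_cons.1 h3 with h4 | h4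
  · exact (sq1 h2).2.1 h4.symm
  · exact hS.sq2 _ h4 rfl

theorem old_one (hS : S ≠ .nil) {w A : BinaryTree Unit} (h : OldW S w) (e : comps w = [A]) :
    A = .nil △ S ∨ A = S △ .nil ∨ A = app S (.nil △ .nil) ∨ A = (Tsq.sq S).1 △ (Tsq.sq S).2 := by
  rcases h with h | h | h | h | h | h | h <;> rw [e] at h
  · exact Or.inl (List.cons.inj h).1
  · exact Or.inr (Or.inl (List.cons.inj h).1)
  · exact Or.inr (Or.inr (Or.inl (List.cons.inj h).1))
  · exact absurd (congrArg List.length h) (by simp)
  · exact Or.inr (Or.inr (Or.inr (List.cons.inj h).1))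
  · exact absurd (congrArg List.length h) (by simp)
  · exact absurd (congrArg List.length h) (by simp)

theorem old_fst (h2 : 2 ≤ ht S) {w : BinaryTree Unit} {L : List (BinaryTree Unit)}
    (h : OldW S w) (e : comps w = .nil :: L) : L = (Tsq.sq S).1 :: comps (Tsq.sq S).2 := by
  have hS : S ≠ .nil := ne_of_ht (h := 1) h2
  rcases h with h | h | h | h | h | h | h <;> rw [e] at h <;> obtain ⟨e1, e2⟩ := List.cons.inj h
  · exact absurd e1 (by simp)
  · exact absurd e1 (by simp)
  · exact absurd e1.symm (Tsq.app_ne_nil hS)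
  · exact absurd e1.symm hS
  · exact absurd e1 (by simp)
  · exact absurd e1.symm (sq1 h2).2.1
  · exact e2

theorem old_last (hN : NBc S) (h2 : 2 ≤ ht S) {w : BinaryTree Unit} {L : List (BinaryTree Unit)}
    (h : OldW S w) (e : comps w = L ++ [.nil]) :
    L = [S] ∨ L = (Tsq.sq S).1 :: comps (Tsq.sq S).2 := by
  have hS : S ≠ .nil := ne_of_ht (h := 1) h2
  have one : ∀ A : BinaryTree Unit, L ++ [.nil] = [A] → A = .nil := by
    intro A e1
    have e2 := congrArg List.getLast? e1
    simpa using e2.symm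
  rcases h with h | h | h | h | h | h | h <;> rw [e] at h
  · exact absurd (one _ h) (by simp)
  · exact absurd (one _ h) (by simp)
  · exact absurd (one _ h) (Tsq.app_ne_nil hS)
  · left
    have e1 : L ++ [.nil] = [S] ++ [.nil] := h
    exact List.append_cancel_right e1
  · exact absurd (one _ h) (by simp)
  · right
    have e1 : L ++ [.nil] = ((Tsq.sq S).1 :: comps (Tsq.sq S).2) ++ [.nil] := h
    exact List.append_cancel_right e1
  · exfalso
    cases L with
    | nil => exact absurd (congrArg List.length h) (by simp)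
    | cons A L =>
      rw [List.cons_append, List.cons.injEq] at h
      exact last_X hN h2 h.2.symm

theorem old_else (h2 : 2 ≤ ht S) {w A C : BinaryTree Unit} {L L' : List (BinaryTree Unit)}
    (h : OldW S w) (e : comps w = A :: L) (hA : A ≠ .nil) (e' : comps w = L' ++ [C]) (hC : C ≠ .nil)
    (hl : 2 ≤ (comps w).length) : False := by
  rcases h with h | h | h | h | h | h | h
  · rw [h] at hl; simp at hl
  · rw [h] at hl; simp at hl
  · rw [h] at hl; simp at hl
  · rw [e'] at h
    have e2 := congrArg List.getLast? h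
    exact hC (by simpa using e2)
  · rw [h] at hl; simp at hl
  · rw [e'] at h
    have e2 := congrArg List.getLast? h
    have e3 : ((Tsq.sq S).1 :: (comps (Tsq.sq S).2 ++ [.nil])).getLast? = some .nil := by
      rw [← List.cons_append, List.getLast?_concat]
    rw [e3] at e2
    exact hC (by simpa using e2)
  · rw [e] at h
    exact hA (List.cons.inj h).1

theorem lastS (hN : NBc S) (hS : S ≠ .nil) : ∃ L A, comps S = L ++ [A] ∧ A ≠ .nil := by
  obtain ⟨L, A, e⟩ := cne' hS
  exact ⟨L, A, e, hN.last e⟩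

/-! ### Plain triples -/

/-- a plain triple against a JV gadget: host against all words, new words against the old words -/
theorem tri9 {P Q R : BinaryTree Unit} (h : IsTri P Q R F g) (h' : Is9 .nil .nil S F' g')
    (hd : ∀ c ∈ F, c ∉ F') (H1 : ¬ NewW S (w1 P Q R)) (H2 : ¬ OldW S (w1 P Q R))
    (H3 : ¬ OldW S (w1 Q R P)) (H4 : ¬ OldW S (w1 R P Q)) : ∀ w ∈ g.B, w ∉ g'.B := by
  intro w hw hw'
  rcases h.words w hw with e | ⟨e1, e⟩
  · rcases words h' w hw' with ⟨_, h2⟩ | h2
    · rw [e] at h2; exact H1 h2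
    · rw [e] at h2; exact H2 h2
  · rcases words h' w hw' with ⟨h1, _⟩ | h2
    · exact hd _ e1 h1
    · rcases e with e | e
      · rw [e] at h2; exact H3 h2
      · rw [e] at h2; exact H4 h2

/-- **W-E-JV, general form** -/
theorem eW0 {X : BinaryTree Unit} (h : IsTri .nil X .nil F g)
    (h' : Is9 .nil .nil S F' g') (hN : NBc S) (hd : ∀ c ∈ F, c ∉ F')
    (h1 : X ≠ .nil △ S) (h2 : X ≠ S △ .nil) (h3 : X ≠ app S (.nil △ .nil)) (h4 : X ≠ xT S) :
    ∀ w ∈ g.B, w ∉ g'.B := by
  have hh := ht3 h'
  have hS := ne h'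
  have hc := comps_ne hS
  refine tri9 h h' hd ?_ ?_ ?_ ?_
  · rintro (e | e) <;> rw [comps_w1] at e
    · have := congrArg List.length e
      have h5 := List.length_pos_iff.2 hc
      simp [comps] at this
      exact hc this
    · have := congrArg List.length e
      simp [comps] at this
      exact hc this
  · intro e
    rcases old_one hS e (A := X) (by rw [comps_w1]; rfl) with h5 | h5 | h5 | h5
    · exact h1 h5
    · exact h2 h5
    · exact h3 h5
    · exact h4 (by rw [h5, xT_sq])
  · intro e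
    rcases old_last hN hh e (L := comps X) (by rw [comps_w1]; rfl) with h5 | h5
    · exact h2 (comps_inj h5)
    · exact h4 (comps_inj (by rw [h5, comps_xT]))
  · intro e
    have h5 := old_fst hh e (L := comps X) (by rw [comps_w1]; rfl)
    exact h4 (comps_inj (by rw [h5, comps_xT]))

theorem eW {X : BinaryTree Unit} (h : IsTri .nil X .nil F g) (_ : X ≠ .nil)
    (h' : Is9 .nil .nil S F' g') (hN : NBc S) (hd : ∀ c ∈ F, c ∉ F')
    (h1 : X ≠ .nil △ S) (h2 : X ≠ S △ .nil) (h3 : X ≠ app S (.nil △ .nil)) (h4 : X ≠ xT S) :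
    ∀ w ∈ g.B, w ∉ g'.B := eW0 h h' hN hd h1 h2 h3 h4

/-- **W-L-JV** : the only common word is `X'() = R(())()` -/
theorem lW {R : BinaryTree Unit} (h : IsTri (lp 1) R (lp 1) F g) (hR : R ≠ .nil)
    (h' : Is9 .nil .nil S F' g') (hN : NBc S) (hd : ∀ c ∈ F, c ∉ F')
    (h1 : xT S ≠ app R ((.nil △ .nil) △ .nil)) : ∀ w ∈ g.B, w ∉ g'.B := by
  have hh := ht3 h'
  have hS := ne h'
  have hc := comps_ne hS
  have hcR := List.length_pos_iff.2 (comps_ne hR)
  have e1 : comps (lp 1) = [.nil] := rfl
  refine tri9 h h' hd ?_ ?_ ?_ ?_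
  · rintro (e | e) <;> rw [comps_w1, e1] at e
    · have e2 := congrArg List.getLast? e
      simp at e2
    · simp at e
  · intro e
    have h5 := old_fst hh e (L := [R, .nil]) (by rw [comps_w1, e1]; rfl)
    rw [List.cons.injEq] at h5
    exact hN.sq2 .nil (by rw [← h5.2]; simp) rfl
  · intro e
    rcases old_last hN hh e (L := comps R ++ [lp 1]) (by rw [comps_w1, e1]; simp) with h5 | h5
    · have := congrArg List.length h5
      simp at this
      exact comps_ne hR (by simpa using this)
    · apply h1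
      apply comps_inj
      rw [comps_xT, ← h5, comps_app]
      rfl
  · intro e
    have h5 := old_fst hh e (L := lp 1 :: comps R) (by rw [comps_w1, e1]; rfl)
    rw [List.cons.injEq] at h5
    exact (sq1 hh).2.2 h5.1.symm

/-- **W-K-JV** : `(S1)(); S1(()), ()()S1`, only `S1 = S'`, `B = e`, or `S1 = ()V`, `X' = V(())` -/
theorem kW' {S1 : BinaryTree Unit} (h : TyK S1 F g) (hR : S1 ≠ .nil)
    (h' : Is9 .nil .nil S F' g') (hN : NBc S) (hd : ∀ c ∈ F, c ∉ F')
    (hf : ∀ V, S1 = .nil △ V → xT S ≠ app V ((.nil △ .nil) △ .nil)) (h1 : xT S ≠ S1 △ .nil) :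
    ∀ w ∈ g.B, w ∉ g'.B := by
  have hh := ht3 h'
  have hS := ne h'
  have hc := comps_ne hS
  obtain ⟨A, L, eA⟩ := cne hR
  have e1 : comps (.nil △ .nil : BinaryTree Unit) = [.nil] := rfl
  by_cases hSS : S1 = S
  · exfalso
    subst hSS
    obtain ⟨a, b, c, ha, hb, hc', h1', h2', h3', rfl, rfl⟩ := h
    obtain ⟨w, hw, rfl, rfl⟩ := h'
    apply hd (cyc b) (Or.inl rfl)
    have e0 : b = w 0 := Subtype.ext (hb.trans (hw.word 0 (by norm_num)).symm)
    rw [e0]
    exact Or.inl rfl
  refine tri9 h h' hd ?_ ?_ ?_ ?_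
  · rintro (e | e) <;> rw [comps_w1, e1] at e
    · have e2 := congrArg List.getLast? e
      simp at e2
    · change [S1, .nil] = _ at e
      rw [List.cons.injEq] at e
      exact hN .nil (by rw [← e.2]; simp) rfl
  · intro e
    rcases old_last hN hh e (L := [S1]) (by rw [comps_w1, e1]; rfl) with h5 | h5
    · exact hSS (List.cons.inj h5).1
    · apply h1
      apply comps_inj
      rw [comps_xT, ← h5]
      rfl
  · intro e
    have e2 : comps (w1 S1 (.nil △ .nil) .nil) = A :: (L ++ [.nil △ .nil]) := by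
      rw [comps_w1, eA]; rfl
    by_cases hA : A = .nil
    · subst hA
      have h5 := old_fst hh e e2
      obtain ⟨V, rfl, eV⟩ := fstN eA
      apply hf V rfl
      apply comps_inj
      rw [comps_xT, ← h5, comps_app, eV]
      rfl
    · refine old_else hh e e2 hA (C := .nil △ .nil) (L' := A :: L) e2 (by simp) ?_
      rw [e2]; simp
  · intro e
    have h5 := old_fst hh e (L := .nil :: comps S1) (by rw [comps_w1, e1]; rfl)
    rw [List.cons.injEq] at h5
    exact (sq1 hh).2.1 h5.1.symm

theorem kW {S1 : BinaryTree Unit} (h : TyK S1 F g) (hR : S1 ≠ .nil)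
    (h' : Is9 .nil .nil S F' g') (hN : NBc S) (hd : ∀ c ∈ F, c ∉ F')
    (hf : ∀ V, S1 ≠ .nil △ V) (h1 : xT S ≠ S1 △ .nil) : ∀ w ∈ g.B, w ∉ g'.B :=
  kW' h hR h' hN hd (fun V e => absurd e (hf V)) h1

/-- **W-K'-JV** : `()(S1); S1()(), (())S1` -/
theorem kmW {S1 : BinaryTree Unit} (h : TyK' S1 F g) (hR : S1 ≠ .nil)
    (h' : Is9 .nil .nil S F' g') (hN : NBc S) (hd : ∀ c ∈ F, c ∉ F')
    (h1 : xT S ≠ S1 △ .nil) : ∀ w ∈ g.B, w ∉ g'.B := by
  have hh := ht3 h'
  have hS := ne h'
  have hc := comps_ne hS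
  have hcR := comps_ne hR
  have e1 : comps (.nil △ .nil : BinaryTree Unit) = [.nil] := rfl
  refine tri9 h h' hd ?_ ?_ ?_ ?_
  · rintro (e | e) <;> rw [comps_w1, e1] at e
    · obtain ⟨A, L, eA⟩ := cne hS
      rw [eA] at e
      change [.nil, S1] = _ at e
      rw [List.cons_append, List.cons.injEq] at e
      exact hN.head eA e.1.symm
    · simp at e
  · intro e
    have h5 := old_fst hh e (L := [S1]) (by rw [comps_w1, e1]; rfl)
    apply h1
    apply comps_inj
    rw [comps_xT, ← h5]
    rfl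
  · intro e
    rcases old_last hN hh e (L := comps S1 ++ [.nil]) (by rw [comps_w1, e1]; simp) with h5 | h5
    · have := congrArg List.length h5
      simp at this
      exact hcR (by simpa using this)
    · exact last_X hN hh h5.symm
  · intro e
    obtain ⟨L, A, eA⟩ := cne' hR
    have e2 : comps (w1 .nil (.nil △ .nil) S1) = (.nil △ .nil) :: (L ++ [A]) := by
      rw [comps_w1, eA]; rfl
    by_cases hA : A = .nil
    · subst hA
      rcases old_last hN hh e (L := (.nil △ .nil) :: L) (by rw [e2]; rfl) with h5 | h5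
      · rw [List.cons.injEq] at h5
        rw [← h5.1] at hh
        have : ht (.nil △ .nil : BinaryTree Unit) = 1 := rfl
        omega
      · rw [List.cons.injEq] at h5
        exact (sq1 hh).2.2 h5.1.symm
    · refine old_else hh e e2 (by simp) (L' := (.nil △ .nil) :: L) (C := A) (by rw [e2]; rfl) hA ?_
      rw [e2]; simp

/-- **W-Cr-JV** : only `R = ()V`, `X' = V[c+1]` -/
theorem crW' {c : ℕ} {R : BinaryTree Unit} (h : TyC c R F g) (hc : 2 ≤ c) (hR : c + 1 ≤ ht R)
    (h' : Is9 .nil .nil S F' g') (hN : NBc S) (hd : ∀ c ∈ F, c ∉ F') (ho : c ≠ 2)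
    (hf : ∀ V, R = .nil △ V → xT S ≠ app V (H1.ch c △ .nil)) : ∀ w ∈ g.B, w ∉ g'.B := by
  have hh := ht3 h'
  have hS := ne h'
  have hRn := ht_ge_ne hR
  have hch := comps_ch' (show 1 ≤ c by omega)
  obtain ⟨A, L, eA⟩ := cne hRn
  refine tri9 h h' hd ?_ ?_ ?_ ?_
  · rintro (e | e) <;> rw [comps_w1, hch] at e
    · have e2 := congrArg List.getLast? e
      simp at e2
      obtain ⟨d, rfl⟩ : ∃ d, c = d + 3 := ⟨c - 3, by omega⟩
      have e3 : H1.ch (d + 3 - 1) = (H1.ch d △ .nil) △ .nil := rfl
      rw [e3] at e2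
      simp at e2
    · change [R, _] = _ at e
      rw [List.cons.injEq] at e
      rw [e.1] at hR
      have : ht (.nil △ .nil : BinaryTree Unit) = 1 := rfl
      omega
  · intro e
    have e2 : comps (w1 .nil R (H1.ch c)) = [R, H1.ch (c - 1)] := by
      rw [comps_w1, hch]; rfl
    exact old_else hh e e2 hRn (L' := [R]) (by rw [e2]; rfl) (ch_ne2 hc) (by rw [e2]; simp)
  · intro e
    have e2 : comps (w1 R (H1.ch c) .nil) = A :: (L ++ [H1.ch c]) := by
      rw [comps_w1, eA]; rfl
    by_cases hA : A = .nil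
    · subst hA
      have h5 := old_fst hh e e2
      obtain ⟨V, rfl, eV⟩ := fstN eA
      apply hf V rfl
      apply comps_inj
      rw [comps_xT, ← h5, comps_app, eV]
      rfl
    · exact old_else hh e e2 hA (L' := A :: L) (C := H1.ch c) (by rw [e2]; rfl) (ch_ne (by omega))
        (by rw [e2]; simp)
  · intro e
    obtain ⟨L2, C, eC⟩ := cne' hRn
    have e2 : comps (w1 (H1.ch c) .nil R) = H1.ch (c - 1) :: .nil :: (L2 ++ [C]) := by
      rw [comps_w1, hch, eC]; rfl
    by_cases hC : C = .nil
    · subst hC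
      rcases old_last hN hh e (L := H1.ch (c - 1) :: .nil :: L2) (by rw [e2]; rfl) with h5 | h5
      · exact absurd (congrArg List.length h5) (by simp)
      · rw [List.cons.injEq] at h5
        exact hN.sq2 .nil (by rw [← h5.2]; simp) rfl
    · exact old_else hh e e2 (ch_ne2 hc) (L' := H1.ch (c - 1) :: .nil :: L2) (C := C)
        (by rw [e2]; rfl) hC (by rw [e2]; simp)

theorem crW {c : ℕ} {R : BinaryTree Unit} (h : TyC c R F g) (hc : 2 ≤ c) (hR : c + 1 ≤ ht R)
    (h' : Is9 .nil .nil S F' g') (hN : NBc S) (hd : ∀ c ∈ F, c ∉ F') (ho : c ≠ 2)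
    (hf : ∀ V, R ≠ .nil △ V) : ∀ w ∈ g.B, w ∉ g'.B :=
  crW' h hc hR h' hN hd ho (fun V e => absurd e (hf V))

/-- **W-Cl-JV** -/
theorem clW {c : ℕ} {R : BinaryTree Unit} (h : TyC' c R F g) (hc : 2 ≤ c) (hR : c + 1 ≤ ht R)
    (h' : Is9 .nil .nil S F' g') (hN : NBc S) (hd : ∀ c ∈ F, c ∉ F')
    (hp : c = 2 → ∀ A, S ≠ A △ .nil) : ∀ w ∈ g.B, w ∉ g'.B := by
  have hh := ht3 h'
  have hS := ne h'
  have hRn := ht_ge_ne hR
  have hch := comps_ch' (show 1 ≤ c by omega)
  have h11 : ht (.nil △ .nil : BinaryTree Unit) = 1 := rfl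
  refine tri9 h h' hd ?_ ?_ ?_ ?_
  · rintro (e | e) <;> rw [comps_w1, hch] at e
    · change [_, R] = _ at e
      have e2 := congrArg List.getLast? e
      rw [List.getLast?_concat] at e2
      have e3 : R = .nil △ .nil := by simpa using e2
      rw [e3] at hR
      omega
    · change [_, R] = _ at e
      rw [List.cons.injEq] at e
      by_cases h3 : c = 2
      · exact hp h3 R (comps_inj (by rw [← e.2]; rfl))
      · obtain ⟨d, rfl⟩ : ∃ d, c = d + 3 := ⟨c - 3, by omega⟩
        have e3 : H1.ch (d + 3 - 1) = (H1.ch d △ .nil) △ .nil := rfl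
        rw [e3] at e
        simp at e
  · intro e
    have e2 : comps (w1 (H1.ch c) R .nil) = [H1.ch (c - 1), R] := by
      rw [comps_w1, hch]; rfl
    exact old_else hh e e2 (ch_ne2 hc) (L' := [H1.ch (c - 1)]) (by rw [e2]; rfl) hRn
      (by rw [e2]; simp)
  · intro e
    obtain ⟨A, L, eA⟩ := cne hRn
    have e2 : comps (w1 R .nil (H1.ch c)) = A :: (L ++ [.nil, H1.ch (c - 1)]) := by
      rw [comps_w1, hch, eA]; rfl
    by_cases hA : A = .nil
    · subst hA
      have h5 := old_fst hh e e2
      have h6 : (.nil : BinaryTree Unit) ∈ (Tsq.sq S).1 :: comps (Tsq.sq S).2 := by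
        rw [← h5]; simp
      rcases List.mem_cons.1 h6 with h7 | h7
      · exact (sq1 hh).2.1 h7.symm
      · exact hN.sq2 _ h7 rfl
    · exact old_else hh e e2 hA (L' := A :: (L ++ [.nil])) (C := H1.ch (c - 1))
        (by rw [e2]; simp) (ch_ne2 hc) (by rw [e2]; simp)
  · intro e
    obtain ⟨L, C, eC⟩ := cne' hRn
    have e2 : comps (w1 .nil (H1.ch c) R) = H1.ch c :: (L ++ [C]) := by
      rw [comps_w1, eC]; rfl
    by_cases hC : C = .nil
    · subst hC
      rcases old_last hN hh e (L := H1.ch c :: L) (by rw [e2]; rfl) with h5 | h5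
      · rw [List.cons.injEq] at h5
        rw [h5.2] at eC
        have e3 : R = .nil △ .nil := comps_inj (by rw [eC]; rfl)
        rw [e3, h11] at hR
        omega
      · rw [List.cons.injEq] at h5
        have e3 : R = app (Tsq.sq S).2 (.nil △ .nil) := by
          apply comps_inj
          rw [eC, h5.2, comps_app]
          rfl
        have h6 := (ht_sq hS).2
        have h7 := (ht_sq hS).1
        rw [← h5.1] at h7
        have h8 : ht (H1.ch c) = c := by
          have key : ∀ n : ℕ, ht (H1.ch n) = n := by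
            intro n
            induction n with
            | zero => rfl
            | succ n ih =>
              change max (ht (H1.ch n) + 1) 0 = n + 1
              rw [ih]
              omega
          exact key c
        rw [e3, ht_app, h11] at hR
        omega
    · exact old_else hh e e2 (ch_ne (by omega)) (L' := H1.ch c :: L) (C := C)
        (by rw [e2]; rfl) hC (by rw [e2]; simp)

/-! ### JV against JV -/

variable {S2 : BinaryTree Unit}

theorem ov_same (h : Is9 .nil .nil S F g) (h' : Is9 .nil .nil S2 F' g') (e : S = S2) :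
    ∃ c ∈ F, c ∈ F' := by
  obtain ⟨w, h1, rfl, rfl⟩ := h
  obtain ⟨w', h1', rfl, rfl⟩ := h'
  subst e
  refine ⟨cyc (w 0), Or.inl rfl, Or.inl ?_⟩
  have e0 : w 0 = w' 0 :=
    Subtype.ext ((h1.word 0 (by norm_num)).trans (h1'.word 0 (by norm_num)).symm)
  rw [e0]

theorem ov_X (h : Is9 .nil .nil S F g) (h' : Is9 .nil .nil S2 F' g') (e : xT S = xT S2) :
    ∃ c ∈ F, c ∈ F' := by
  apply ov_same h h'
  obtain ⟨w, h1, rfl, rfl⟩ := h
  obtain ⟨w', h1', rfl, rfl⟩ := h'
  have e6 : w 6 = w' 6 := by
    apply Subtype.ext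
    rw [h1.word 6 (by norm_num), h1'.word 6 (by norm_num)]
    change w1 .nil (app .nil (xT S)) .nil = w1 .nil (app .nil (xT S2)) .nil
    rw [e]
  have e3 : w 3 = w' 3 := by
    have k1 := h1.arcs.1
    have k2 := h1'.arcs.1
    rw [← k1, ← k2] at e6
    exact TT.injective (TT.injective e6)
  have e4 := congrArg Subtype.val e3
  rw [h1.word 3 (by norm_num), h1'.word 3 (by norm_num)] at e4
  have e5 : (S △ .nil) △ .nil = (S2 △ .nil) △ (.nil : BinaryTree Unit) := e4
  simpa using e5

theorem ov_sq (h : Is9 .nil .nil S F g) (h' : Is9 .nil .nil S2 F' g')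
    (e : (Tsq.sq S2).1 △ (Tsq.sq S2).2 = S △ .nil) : ∃ c ∈ F, c ∈ F' := by
  have hh := ht3 h'
  have hS := ne h'
  obtain ⟨w, h1, rfl, rfl⟩ := h
  obtain ⟨w', h1', rfl, rfl⟩ := h'
  refine ⟨cyc (w 1), Or.inr rfl, Or.inl ?_⟩
  have ez : (w' 0).1 = app S2 ((.nil △ .nil) △ .nil) := h1'.word 0 (by norm_num)
  have hn : (w' 0).1 ≠ .nil := by rw [ez]; exact Tsq.app_ne_nil hS
  have e1 : (TT (TT (w' 0))).1 = (w 1).1 := by
    rw [Tsq.TT_sq _ hn, ez, Tsq.sq_app _ _ hS (by
      rw [H1.ht_eq, H1.ht_eq]
      have : ht ((.nil △ .nil) △ .nil : BinaryTree Unit) = 2 := rfl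
      omega)]
    injection e with _ e2 e3
    change app (app (Tsq.sq S2).2 _) (Tsq.sq S2).1 = _
    rw [e3, e2, h1.word 1 (by norm_num)]
    rfl
  have e2 : TT (TT (w' 0)) = w 1 := Subtype.ext e1
  rw [← e2, cyc_TT, cyc_TT]

/-- **W-JV-JV** -/
theorem dj_JV (h : Is9 .nil .nil S F g) (hN : NBc S) (h' : Is9 .nil .nil S2 F' g') (hN' : NBc S2)
    (hd : ∀ c ∈ F, c ∉ F') : ∀ w ∈ g.B, w ∉ g'.B := by
  have hh := ht3 h
  have hh' := ht3 h'
  have hS := ne h
  have hS' := ne h'
  have hd1 : ¬ ∃ c ∈ F, c ∈ F' := fun ⟨c, h1, h2⟩ => hd c h1 h2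
  have hd2 : ¬ ∃ c ∈ F', c ∈ F := fun ⟨c, h1, h2⟩ => hd c h2 h1
  -- new against old
  have key : ∀ T U : BinaryTree Unit, NBc T → T ≠ .nil → 2 ≤ ht U → ∀ w : BinaryTree Unit,
      NewW T w → OldW U w → False := by
    intro T U hT hT0 hU w h1 h2
    obtain ⟨A, L, eA⟩ := cne hT0
    obtain ⟨L', C, eC, hC⟩ := lastS hT hT0
    rcases h1 with h1 | h1
    · have e2 : comps w = A :: (L ++ [.nil △ .nil]) := by rw [h1, eA]; rfl
      exact old_else hU h2 e2 (hT.head eA) (L' := comps T) (C := .nil △ .nil) h1 (by simp)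
        (by rw [e2]; simp)
    · have e2 : comps w = ((.nil △ .nil) :: L') ++ [C] := by rw [h1, eC]; rfl
      exact old_else hU h2 h1 (by simp) e2 hC (by rw [h1, eC]; simp)
  intro w hw hw'
  rcases words h w hw with ⟨c1, c2⟩ | c2
  · rcases words h' w hw' with ⟨d1, d2⟩ | d2
    · exact hd _ c1 d1
    · exact key S S2 hN hS hh' _ c2 d2
  · rcases words h' w hw' with ⟨d1, d2⟩ | d2
    · exact key S2 S hN' hS' hh _ d2 c2
    · -- old against old
      have one : ∀ A : BinaryTree Unit, comps w.1 = [A] → False := by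
        intro A e
        have nn : ∀ T U : BinaryTree Unit, NBc U → U ≠ .nil → .nil △ T ≠ app U (.nil △ .nil) := by
          intro T U hU hU0 e
          have e1 := congrArg comps e
          obtain ⟨A, L, eA⟩ := cne hU0
          rw [comps_app, eA, comps_node, List.cons_append, List.cons.injEq] at e1
          exact hU.head eA e1.1.symm
        have ln : ∀ T U : BinaryTree Unit, U ≠ .nil → T △ .nil ≠ app U (.nil △ .nil) := by
          intro T U hU0 e
          have e1 := congrArg (fun t => (comps t).length) e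
          have h5 := List.length_pos_iff.2 (comps_ne hU0)
          simp [comps_app, comps] at e1
          exact comps_ne hU0 e1
        have lx : ∀ T U : BinaryTree Unit, NBc U → 2 ≤ ht U →
            app T (.nil △ .nil) ≠ (Tsq.sq U).1 △ (Tsq.sq U).2 := by
          intro T U hU hU0 e
          have e1 := congrArg comps e
          rw [comps_app, comps_node] at e1
          exact last_X hU hU0 e1.symm
        rcases old_one hS c2 e with h1 | h1 | h1 | h1 <;>
          rcases old_one hS' d2 e with h2 | h2 | h2 | h2 <;> rw [h1] at h2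
        · exact hd1 (ov_same h h' (by simpa using h2))
        · injection h2 with _ e1 e2; exact hS e2
        · exact nn _ _ hN' hS' h2
        · injection h2 with _ e1 e2; exact (sq1 hh').2.1 e1.symm
        · injection h2 with _ e1 e2; exact hS e1
        · exact hd1 (ov_same h h' (by simpa using h2))
        · exact ln _ _ hS' h2
        · exact hd1 (ov_sq h h' h2.symm)
        · exact nn _ _ hN hS h2.symm
        · exact ln _ _ hS h2.symm
        · have e1 := congrArg comps h2
          rw [comps_app, comps_app] at e1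
          exact hd1 (ov_same h h' (comps_inj (List.append_cancel_right e1)))
        · exact lx _ _ hN' hh' h2
        · injection h2 with _ e1 e2; exact (sq1 hh).2.1 e1
        · exact hd2 (ov_sq h' h h2)
        · exact lx _ _ hN hh h2.symm
        · exact hd1 (ov_X h h' (by rw [xT_sq, xT_sq, h2]))
      have two : ∀ L : List (BinaryTree Unit), comps w.1 = L ++ [.nil] → False := by
        intro L e
        rcases old_last hN hh c2 e with h1 | h1 <;> rcases old_last hN' hh' d2 e with h2 | h2 <;>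
          rw [h1] at h2
        · exact hd1 (ov_same h h' (List.cons.inj h2).1)
        · refine hd1 (ov_sq h h' (comps_inj ?_))
          rw [comps_node, ← h2]; rfl
        · refine hd2 (ov_sq h' h (comps_inj ?_))
          rw [comps_node, h2]; rfl
        · refine hd1 (ov_X h h' (comps_inj ?_))
          rw [comps_xT, comps_xT, h2]
      rcases c2 with c3 | c3 | c3 | c3 | c3 | c3 | c3
      · exact one _ c3
      · exact one _ c3
      · exact one _ c3
      · exact two [S] c3
      · exact one _ c3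
      · exact two _ (c3.trans (List.cons_append).symm)
      · have h1 := old_fst hh' d2 c3
        refine hd1 (ov_X h h' (comps_inj ?_))
        rw [comps_xT, comps_xT, h1]

end JVW

end Pool.OddHC
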