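import Pool.Agent.Work.MP_8f87b2_h43.JVW
import Pool.Agent.Work.MP_8f87b2_h4.Strong
import Pool.Agent.Work.MP_8f87b2_h13.A0Dn

/-!
# MP_8f87b2_co, W rows of JV: wrappers for the types E, L, K, Cr, Cl
-/

set_option autoImplicit false

namespace Pool.OddHC

open Finset Equiv BinaryTree Pool.Agent.Work.MP_8f87b2_co

namespace JVW

variable {k : ℕ} {F F' : Set (Cyc k)} {g g' : DG k} {S T : BinaryTree Unit}

theorem NBc.of_cnt (h : (cont S).count 1 = 0) : NBc S := by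
  intro A hA e
  subst e
  have h1 : (1 : ℕ) ∈ raise (cont (.nil : BinaryTree Unit)) := by
    rw [cont_nil]
    unfold raise
    simp
  have h2 := mem_comps hA h1
  exact absurd (Multiset.count_pos.2 h2) (by omega)

theorem ex_comps : ∀ L : List (BinaryTree Unit), ∃ t : BinaryTree Unit, comps t = L
  | [] => ⟨.nil, rfl⟩
  | A :: L => by
    obtain ⟨t, ht⟩ := ex_comps L
    exact ⟨A △ t, by rw [comps_node, ht]⟩

/-- the square keeps the content -/
theorem cont_sqW (h : S ≠ .nil) : cont (Tsq.sq S).1 + cont (Tsq.sq S).2 = cont S := by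
  let x : X S.numNodes := ⟨S, mem_treesOfNumNodesEq.2 rfl⟩
  have e1 : (TT (TT x)).1 = app (Tsq.sq S).2 (Tsq.sq S).1 := Tsq.TT_sq x h
  have e2 : OddHC.cont (TT (TT x)).1 = OddHC.cont S := by
    rw [TT_apply, cont_TF, TT_apply, cont_TF]
  rw [e1, cont_app] at e2
  rw [add_comm]
  exact e2

/-- the second part of `sq S` is a suffix of `S` -/
theorem sq_suffix : ∀ S : BinaryTree Unit, comps (Tsq.sq S).2 <:+ comps S := by
  intro S
  induction S with
  | nil => exact List.suffix_rfl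
  | node _ A C _ ih =>
    by_cases h : Tsq.ht A + 1 < Tsq.ht C
    · have hC : C ≠ .nil := by
        rintro rfl
        simp [Tsq.ht] at h
      obtain ⟨Xx, Y, hX⟩ : ∃ Xx Y, (Tsq.sq C).1 = Xx △ Y := by
        cases hS : (Tsq.sq C).1 with
        | nil => exact absurd hS (Tsq.sq_ne hC)
        | node _ Xx Y => exact ⟨Xx, Y, rfl⟩
      rw [Tsq.sq_lt h hX, comps_node]
      exact ih.trans (List.suffix_cons _ _)
    · have e : (Tsq.sq (A △ C)).2 = C := by
        rw [Tsq.sq_node, if_neg h]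
      rw [e, comps_node]
      exact List.suffix_cons _ _

/-- `X'` ends with `(C)` only if `S` does, or `C` is the first part of `sq S` -/
theorem end_of_xT' {C R : BinaryTree Unit} (h0 : R = .nil → C ≠ (Tsq.sq S).1)
    (h : xT S = app R (C △ .nil)) : ∃ S0, S = app S0 (C △ .nil) := by
  have e := congrArg comps h
  rw [comps_xT, comps_app] at e
  have e1 : comps (C △ .nil : BinaryTree Unit) = [C] := rfl
  rw [e1] at e
  rcases List.eq_nil_or_concat (comps (Tsq.sq S).2) with h3 | ⟨L, C', h3⟩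
  · exfalso
    rw [h3] at e
    have e2 := congrArg List.length e
    have e3 : comps R = [] := by simpa using e2
    rw [e3] at e
    exact h0 (comps_inj e3) (List.cons.inj e).1.symm
  · rw [List.concat_eq_append] at h3
    rw [h3, ← List.cons_append] at e
    have e2 := congrArg List.getLast? e
    rw [List.getLast?_concat, List.getLast?_concat] at e2
    have e3 : C' = C := by simpa using e2
    obtain ⟨L2, e4⟩ := sq_suffix S
    obtain ⟨S0, hS0⟩ := ex_comps (L2 ++ L)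
    refine ⟨S0, comps_inj ?_⟩
    rw [← e4, h3, comps_app, hS0, e1, e3, List.append_assoc]

/-- `X'` ends with `(())` only if `S` does -/
theorem end_of_xT (h2 : 2 ≤ ht S) {R : BinaryTree Unit} (h : xT S = app R ((.nil △ .nil) △ .nil)) :
    ∃ S0, S = app S0 ((.nil △ .nil) △ .nil) :=
  end_of_xT' (fun _ e => (sq1 h2).2.2 e.symm) h

/-- S does not end with `(())` -/
def NE2 (S : BinaryTree Unit) : Prop := ∀ S0, S ≠ app S0 ((.nil △ .nil) △ .nil)

theorem NE2.xT (h2 : 2 ≤ ht S) (h : NE2 S) (R : BinaryTree Unit) :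
    xT S ≠ app R ((.nil △ .nil) △ .nil) := by
  intro e
  obtain ⟨S0, e1⟩ := end_of_xT h2 e
  exact h S0 e1

/-! ### E with the rule `Low` -/

theorem fh_S {t : BinaryTree Unit} (h : NBc t) (h0 : t ≠ .nil) : ∃ A Y, t = A △ Y ∧ A ≠ .nil ∧ H1.fh t = ht A := by
  cases t with
  | nil => exact absurd rfl h0
  | node _ A Y =>
    have hA : A ≠ .nil := h.head (comps_node A Y)
    exact ⟨A, Y, rfl, hA, H1.fh_node hA Y⟩

/-- the first large component of `S()`, `()S`, `(S)`, `X'` and the rule `Low` -/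
theorem low_hit {Y : BinaryTree Unit} (hL : J3.FhOK Y) (hN : NBc S) (hh : 2 ≤ ht S)
    (h23 : (1 ≤ (cont S).count 2 ∧ 3 ≤ ht S) ∨
      ((cont S).count 2 = 0 ∧ 1 ≤ (cont S).count 3 ∧ 4 ≤ ht S)) :
    Y ≠ S △ .nil ∧ Y ≠ xT S ∧ ((Y = .nil △ S ∨ Y = app S (.nil △ .nil)) →
      ((1 ≤ (cont S).count 2 → H1.fh S = 1) ∧ ((cont S).count 2 = 0 → H1.fh S = 2))) := by
  obtain ⟨k1, k2⟩ := hL
  have hS : S ≠ .nil := ne_of_ht (h := 1) hh
  have hsup : (cont S).sup = ht S := (ht_eq S).symm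
  have h3 : 3 ≤ ht S := by rcases h23 with h | h <;> omega
  have c1 : cont (.nil : BinaryTree Unit) = 0 := cont_nil
  have r0 : raise (0 : Multiset ℕ) = {1} := by
    unfold raise
    simp
  obtain ⟨A, Z, eS, hA, fS⟩ := fh_S hN hS
  have fin : ∀ m : ℕ, H1.fh Y = m → m = ht S → (cont Y).count 2 = (cont S).count 2 →
      ((cont S).count 3 = (cont Y).count 3 ∨ ¬ 4 ≤ ht S) → False := by
    intro m f1 f2 f3 f4
    rcases h23 with ⟨a1, a2⟩ | ⟨a1, a2, a3⟩
    · have := k1 (by omega)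
      omega
    · have := k2 (by omega) (by rcases f4 with f4 | f4 <;> omega)
      omega
  refine ⟨?_, ?_, ?_⟩
  · rintro rfl
    refine fin (ht S) (H1.fh_node hS _) rfl ?_ ?_
    · rw [cont_node, c1, add_zero, count_raise 2 (by omega) (by omega)]
    · by_cases h4 : 4 ≤ ht S
      · left
        rw [cont_node, c1, add_zero, count_raise 3 (by omega) (by omega)]
      · right; exact h4
  · rintro rfl
    have q1 := (sq1 hh).1
    have q2 := (sq1 hh).2.1
    have q3 := cont_sqW hS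
    have q4 : (cont (Tsq.sq S).1).sup = ht S := by rw [← ht_eq, q1]
    refine fin (ht S) ?_ rfl ?_ ?_
    · rw [xT_sq, H1.fh_node q2, q1]
    · rw [xT_sq, cont_node, Multiset.count_add, count_raise 2 (by omega) (by omega), ← q3,
        Multiset.count_add]
    · by_cases h4 : 4 ≤ ht S
      · left
        rw [xT_sq, cont_node, Multiset.count_add, count_raise 3 (by omega) (by omega), ← q3,
          Multiset.count_add]
      · right; exact h4
  · have e0 : (cont (app S (.nil △ .nil))) = cont S + {1} := by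
      rw [cont_app, cont_node, c1, r0, add_zero]
    have e1 : (cont (.nil △ S)) = {1} + cont S := by
      rw [cont_node, c1, r0]
    have g2 : ∀ n : ℕ, 2 ≤ n → (Y = .nil △ S ∨ Y = app S (.nil △ .nil)) →
        (cont Y).count n = (cont S).count n := by
      rintro n hn (rfl | rfl)
      · rw [e1, Multiset.count_add, Multiset.count_singleton, if_neg (by omega), zero_add]
      · rw [e0, Multiset.count_add, Multiset.count_singleton, if_neg (by omega), add_zero]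
    have gf : (Y = .nil △ S ∨ Y = app S (.nil △ .nil)) → H1.fh Y = H1.fh S := by
      rintro (rfl | rfl)
      · exact H1.fh_leaf S
      · apply H1.fh_app
        rw [fS]
        intro e
        have := ht_pos hA
        omega
    intro hY
    have x2 := g2 2 le_rfl hY
    have x3 := g2 3 (by norm_num) hY
    rw [← gf hY]
    refine ⟨fun a1 => k1 (by omega), fun a1 => k2 (by omega) ?_⟩
    rcases h23 with h | h <;> omega

/-- **E - JV, exact form**: a common word forces the E group to be `{cyc S()(), cyc ()S()}` or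
`{cyc ()S(), cyc ()()S}` -/
theorem hit_EJV (h : TyE F g) (h' : Is9 .nil .nil S F' g') (h1 : (cont S).count 1 = 0)
    (hd : ∀ c ∈ F, c ∉ F') (h23 : (1 ≤ (cont S).count 2 ∧ 3 ≤ ht S) ∨
      ((cont S).count 2 = 0 ∧ 1 ≤ (cont S).count 3 ∧ 4 ≤ ht S)) {w : X k} (hw : w ∈ g.B)
    (hw' : w ∈ g'.B) :
    ∃ Y : BinaryTree Unit, (Y = app S (.nil △ .nil) ∨ Y = .nil △ S) ∧ IsTri .nil Y .nil F g ∧
      ((1 ≤ (cont S).count 2 → H1.fh S = 1) ∧ ((cont S).count 2 = 0 → H1.fh S = 2)) := by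
  have hN := NBc.of_cnt h1
  have hh := ht3 h'
  obtain ⟨Y, ht', hL⟩ := h.fh
  obtain ⟨l1, l2, l3⟩ := low_hit hL hN hh h23
  by_cases hY : Y = app S (.nil △ .nil) ∨ Y = .nil △ S
  · exact ⟨Y, hY, ht', l3 hY.symm⟩
  · rw [not_or] at hY
    exact absurd hw' (eW0 ht' h' hN hd hY.2 l1 hY.1 l2 w hw)

/-- **E - JV**: with a part 2 in `S` and `S` not beginning with `(())` (or no part 2, a part 3, `S` not beginning
with a component of height 2) an E triple with the rule `Low` has no common word with the JV gadget over `S` -/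
theorem dj_EJV (h : TyE F g) (h' : Is9 .nil .nil S F' g') (h1 : (cont S).count 1 = 0)
    (hd : ∀ c ∈ F, c ∉ F')
    (h23 : (1 ≤ (cont S).count 2 ∧ 3 ≤ ht S ∧ H1.fh S ≠ 1) ∨
      ((cont S).count 2 = 0 ∧ 1 ≤ (cont S).count 3 ∧ 4 ≤ ht S ∧ H1.fh S ≠ 2)) :
    ∀ w ∈ g.B, w ∉ g'.B := by
  intro w hw hw'
  have h23' : (1 ≤ (cont S).count 2 ∧ 3 ≤ ht S) ∨
      ((cont S).count 2 = 0 ∧ 1 ≤ (cont S).count 3 ∧ 4 ≤ ht S) := by
    rcases h23 with h | h
    · exact Or.inl ⟨h.1, h.2.1⟩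
    · exact Or.inr ⟨h.1, h.2.1, h.2.2.1⟩
  obtain ⟨Y, _, _, q1, q2⟩ := hit_EJV h h' h1 hd h23' hw hw'
  rcases h23 with ⟨a1, a2, a3⟩ | ⟨a1, a2, a3, a4⟩
  · exact a3 (q1 a1)
  · exact a4 (q2 a1)

/-- the groups of an E triple over `Y` -/
theorem tri_F {Y : BinaryTree Unit} (h : IsTri .nil Y .nil F g) : ∃ b c : X k,
    b.1 = app Y (.nil △ .nil) ∧ c.1 = .nil △ Y ∧ F = {cyc b, cyc c} := by
  obtain ⟨a, b, c, ha, hb, hc, _, _, _, rfl, rfl⟩ := h
  exact ⟨b, c, hb, hc, rfl⟩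

/-- **E - JV, exact form, with the group** -/
theorem hit_EJV_F (h : TyE F g) (h' : Is9 .nil .nil S F' g') (h1 : (cont S).count 1 = 0)
    (hd : ∀ c ∈ F, c ∉ F') (h23 : (1 ≤ (cont S).count 2 ∧ 3 ≤ ht S) ∨
      ((cont S).count 2 = 0 ∧ 1 ≤ (cont S).count 3 ∧ 4 ≤ ht S)) {w : X k} (hw : w ∈ g.B)
    (hw' : w ∈ g'.B) :
    ∃ b c : X k, F = {cyc b, cyc c} ∧
      ((b.1 = app (app S (.nil △ .nil)) (.nil △ .nil) ∧ c.1 = .nil △ app S (.nil △ .nil)) ∨
      (b.1 = app (.nil △ S) (.nil △ .nil) ∧ c.1 = .nil △ (.nil △ S))) := by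
  obtain ⟨Y, hY, ht', _⟩ := hit_EJV h h' h1 hd h23 hw hw'
  obtain ⟨b, c, e1, e2, e3⟩ := tri_F ht'
  refine ⟨b, c, e3, ?_⟩
  rcases hY with rfl | rfl
  · exact Or.inl ⟨e1, e2⟩
  · exact Or.inr ⟨e1, e2⟩

/-! ### L, K, K', Cr, Cl -/

/-- **L - JV** -/
theorem dj_LJV (h : TyL F g) (h' : Is9 .nil .nil S F' g') (h1 : (cont S).count 1 = 0)
    (hd : ∀ c ∈ F, c ∉ F') (hE : NE2 S) : ∀ w ∈ g.B, w ∉ g'.B := by
  obtain ⟨R', e, h2, h3, h4, h5, h6⟩ := h
  exact lW h6 (ne_of_ht (h := 1) (ht_ins_ge R' e h2)) h' (NBc.of_cnt h1) hd (hE.xT (ht3 h') _)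

/-- **K - JV** -/
theorem dj_KJV {S1 : BinaryTree Unit} (h : TyK S1 F g) (hR : S1 ≠ .nil) (h' : Is9 .nil .nil S F' g')
    (h1 : (cont S).count 1 = 0) (hd : ∀ c ∈ F, c ∉ F') (hE : NE2 S) (hX : xT S ≠ S1 △ .nil) :
    ∀ w ∈ g.B, w ∉ g'.B :=
  kW' h hR h' (NBc.of_cnt h1) hd (fun V _ => hE.xT (ht3 h') V) hX

/-- **K' - JV** -/
theorem dj_KmJV {S1 : BinaryTree Unit} (h : TyK' S1 F g) (hR : S1 ≠ .nil) (h' : Is9 .nil .nil S F' g')
    (h1 : (cont S).count 1 = 0) (hd : ∀ c ∈ F, c ∉ F') (hX : xT S ≠ S1 △ .nil) :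
    ∀ w ∈ g.B, w ∉ g'.B :=
  kmW h hR h' (NBc.of_cnt h1) hd hX

/-- **Cr - JV** : `S` does not end with `[b]`, `b` even, `4 ≤ b` -/
theorem dj_CrJV (h : TyCr F g) (h' : Is9 .nil .nil S F' g') (h1 : (cont S).count 1 = 0)
    (hd : ∀ c ∈ F, c ∉ F') (hE : ∀ c, 3 ≤ c → Odd c → ∀ S0, S ≠ app S0 (H1.ch c △ .nil)) :
    ∀ w ∈ g.B, w ∉ g'.B := by
  obtain ⟨c, R, h2, h3, h4, h5⟩ := h
  have h6 : 3 ≤ c := by
    obtain ⟨m, rfl⟩ := h4
    omega
  refine crW' h5 h2 h3 h' (NBc.of_cnt h1) hd (by omega) ?_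
  intro V e1 e2
  have h0 : V = .nil → H1.ch c ≠ (Tsq.sq S).1 := by
    intro e4
    exfalso
    rw [e1, e4] at h3
    have : ht (.nil △ .nil : BinaryTree Unit) = 1 := rfl
    omega
  obtain ⟨S0, e3⟩ := end_of_xT' h0 e2
  exact hE c h6 h4 S0 e3

/-- **Cl - JV** : `S` not prime (only for `c = 2`) -/
theorem dj_ClJV (h : TyCl F g) (h' : Is9 .nil .nil S F' g') (h1 : (cont S).count 1 = 0)
    (hd : ∀ c ∈ F, c ∉ F') (hp : ∀ A, S ≠ A △ .nil) :
    ∀ w ∈ g.B, w ∉ g'.B := by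
  obtain ⟨c, R, h2, h3, h4, h5⟩ := h
  exact clW h5 h2 h3 h' (NBc.of_cnt h1) hd (fun _ => hp)

end JVW

end Pool.OddHC
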