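import Pool.Agent.Work.MP_8f87b2_h4.Strong

/-!
# MP_8f87b2_co: word rows of the pair gadget J2B (20 words `W R e B S`, new `{0,10}`, `{4}`)

After helper4's rows for J3V. Here only the T-cycles of the words 0 and 4 are new (`hd0`), and the word 9 = `((R))` is
a word of the gadget.
-/

set_option autoImplicit false
set_option linter.unusedSimpArgs false
set_option linter.unusedVariables false

namespace Pool.OddHC

open Finset Equiv BinaryTree Pool.Agent.Work.MP_8f87b2_co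

open J3

variable {k : ℕ} {F F' : Set (Cyc k)} {g g' : DG k}

namespace J2B

variable {R B S Y A : BinaryTree Unit} {c : ℕ}

/-- the T-cycles of the words 0 and 4 are not in `F` -/
def HD (F : Set (Cyc k)) (R B S : BinaryTree Unit) (w0 : X k) : Prop :=
  ∀ c ∈ F, c ≠ cyc (sX R B S w0 0) ∧ c ≠ cyc (sX R B S w0 4)

/-- the word 9 -/
theorem w9 (R B S : BinaryTree Unit) : H1.W R .nil B S 9 = (R △ .nil) △ .nil := rfl

theorem nine_one (e : H1.W R .nil B S 9 = Y △ .nil) : Y = R △ .nil := (H1.node_inj e).1.symm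

theorem nine_app (hR : R ≠ .nil) (hY : Y ≠ .nil) : H1.W R .nil B S 9 ≠ app Y (A △ .nil) := by
  intro e
  have e' : app .nil ((R △ .nil) △ .nil) = app Y (A △ .nil) := e
  exact hY (H1.app_snoc e').1.symm

theorem nine_node {Z : BinaryTree Unit} (hZ : Z ≠ .nil) : H1.W R .nil B S 9 ≠ A △ Z := by
  intro e
  exact hZ (H1.node_inj e).2.symm

/-! ### E -/

/-- **E - J2B**, exact list -/
theorem eW (h : SqD k R B S) (ht : IsTri .nil Y .nil F g) {w : X k} (hw : w ∈ g.B)
    {i : ℕ} (hi : i < 20) (e : w.1 = H1.W R .nil B S i) :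
    Y = app R (.nil △ .nil) ∨ Y = .nil △ R ∨ Y = R △ .nil ∨ Y = S △ B ∨ Y = app S (B △ .nil) ∨
      (B = .nil ∧ Y = .nil △ S) := by
  by_cases h9 : i = 9
  · subst h9
    rcases ht.words w hw with e1 | ⟨-, e1 | e1⟩
    · exact Or.inr (Or.inr (Or.inl (nine_one (e.symm.trans e1))))
    · by_cases hY : Y = .nil
      · subst hY
        have e2 : ((R △ .nil) △ .nil : BinaryTree Unit) = .nil △ .nil := e.symm.trans e1
        exact absurd (H1.node_inj e2).1 (by simp)
      · exact absurd (e.symm.trans e1) (nine_app h.ne hY)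
    · have e2 : ((R △ .nil) △ .nil : BinaryTree Unit) = .nil △ Y := e.symm.trans e1
      exact absurd (H1.node_inj e2).1 (by simp)
  · rcases ht.words w hw with e1 | ⟨-, e1 | e1⟩
    · rcases h.one1 hi h9 (e.symm.trans e1) with ⟨_, e2⟩ | ⟨_, e2⟩ | ⟨_, e2⟩ | ⟨_, e2⟩ | ⟨_, hB, e2⟩
      · exact Or.inl e2
      · exact Or.inr (Or.inl e2)
      · exact Or.inr (Or.inr (Or.inr (Or.inl e2)))
      · exact Or.inr (Or.inr (Or.inr (Or.inr (Or.inl e2))))
      · exact Or.inr (Or.inr (Or.inr (Or.inr (Or.inr ⟨hB, e2⟩))))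
    · rcases h.lst hi h9 (e.symm.trans e1) with
        ⟨_, e2⟩ | ⟨_, e2⟩ | ⟨_, e2⟩ | ⟨_, e2⟩ | ⟨_, e2⟩ | ⟨_, hB, e2⟩
      · exact Or.inl e2
      · exact Or.inr (Or.inl e2)
      · exact Or.inr (Or.inr (Or.inl e2))
      · exact Or.inr (Or.inr (Or.inr (Or.inl e2)))
      · exact Or.inr (Or.inr (Or.inr (Or.inr (Or.inl e2))))
      · exact Or.inr (Or.inr (Or.inr (Or.inr (Or.inr ⟨hB, e2⟩))))
    · rcases h.fst hi h9 (e.symm.trans e1) with
        ⟨_, e2⟩ | ⟨_, e2⟩ | ⟨_, e2⟩ | ⟨_, e2⟩ | ⟨_, e2⟩ | ⟨_, hB, e2⟩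
      · exact Or.inl e2
      · exact Or.inr (Or.inl e2)
      · exact Or.inr (Or.inr (Or.inl e2))
      · exact Or.inr (Or.inr (Or.inr (Or.inl e2)))
      · exact Or.inr (Or.inr (Or.inr (Or.inr (Or.inl e2))))
      · exact Or.inr (Or.inr (Or.inr (Or.inr (Or.inr ⟨hB, e2⟩))))

/-- **E - J2B with the rule `Low`**: only `X = R()`, `()R`, `()S` (`B = e`), and `S(B)` in the exceptional case -/
theorem eLow (h : SqD k R B S) (h4 : 4 ≤ OddHC.ht R)
    (h23 : 1 ≤ (OddHC.cont R).count 2 ∨ 1 ≤ (OddHC.cont R).count 3) (ht : IsTri .nil Y .nil F g)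
    (hL : FhOK Y) {w : X k} (hw : w ∈ g.B) {i : ℕ} (hi : i < 20) (e : w.1 = H1.W R .nil B S i) :
    Y = app R (.nil △ .nil) ∨ Y = .nil △ R ∨ (B = .nil ∧ Y = .nil △ S) ∨
      (Y = app S (B △ .nil) ∧ (B = .nil ∨ ((OddHC.cont R).count 2 = 0 ∧ (OddHC.cont S).count 3 = 0 ∧
        OddHC.ht B = 3 ∧ (OddHC.cont B).count 3 = 1))) := by
  obtain ⟨l1, l2⟩ := h.low1 (by rcases h23 with h1 | h1; exacts [Or.inl h1, Or.inr ⟨h4, h1⟩])
  rcases eW h ht hw hi e with rfl | rfl | rfl | rfl | rfl | h6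
  · exact Or.inl rfl
  · exact Or.inr (Or.inl rfl)
  · exact absurd hL l1
  · exact absurd hL l2
  · right; right; right
    refine ⟨rfl, ?_⟩
    by_cases hB : B = .nil
    · exact Or.inl hB
    · right
      obtain ⟨k1, k2⟩ := h.low2 h4 hL
      obtain ⟨m1, m2, m3⟩ := h.cntSB k1 k2
      obtain ⟨m4, m5⟩ := m3 (by omega)
      exact ⟨m1, m2, m4, m5⟩
  · exact Or.inr (Or.inr (Or.inl h6))

/-! ### K -/

theorem k_ne (h : SqD k R B S) {w0 : X k} (ht : IsTri .nil Y (.nil △ .nil) F g)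
    (hd : HD F R B S w0) : Y ≠ R := by
  obtain ⟨a, b, c, ha, hb, hc, h1, h2, h3, rfl, rfl⟩ := ht
  rintro rfl
  refine (hd (cyc b) (Or.inl rfl)).1 ?_
  congr 1
  apply Subtype.ext
  rw [hb, h.word w0 (by norm_num)]
  rfl

/-- **K - J2B**, exact list -/
theorem kW (h : SqD k R B S) {w0 : X k} (ht : IsTri .nil Y (.nil △ .nil) F g) (hY : Y ≠ .nil)
    (hd : HD F R B S w0) {w : X k} (hw : w ∈ g.B)
    {i : ℕ} (hi : i < 20) (e : w.1 = H1.W R .nil B S i) :
    (B = .nil ∧ Y = S) ∨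
    (i = 5 ∧ ∃ R', R = app R' ((.nil △ .nil) △ .nil) ∧ Y = .nil △ (.nil △ R')) ∨
    (i = 11 ∧ ∃ S', S = app S' ((.nil △ .nil) △ .nil) ∧ Y = app B (.nil △ (.nil △ S'))) ∨
    (i = 14 ∧ ∃ B', B = app B' ((.nil △ .nil) △ .nil) ∧ Y = (.nil △ S) △ B') ∨
    (i = 15 ∧ ∃ B', B = app B' ((.nil △ .nil) △ .nil) ∧ Y = .nil △ (S △ B')) := by
  have hR := h.ne
  have hS := h.neS
  have lY := H1.len_pos hY
  have nR := k_ne h ht hd
  have lR := H1.len_pos hR
  have lS := H1.len_pos hS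
  by_cases h9 : i = 9
  · exfalso
    subst h9
    rcases ht.words w hw with e1 | ⟨hF, e1 | e1⟩
    · have e2 : H1.W R .nil B S 9 = app (Y △ .nil) (.nil △ .nil) := e.symm.trans e1
      exact nine_app hR (by simp) e2
    · have e2 : H1.W R .nil B S 9 = app Y ((.nil △ .nil) △ .nil) := e.symm.trans e1
      exact nine_app hR hY e2
    · have e2 : H1.W R .nil B S 9 = .nil △ (.nil △ Y) := e.symm.trans e1
      exact nine_node (by simp) e2
  rcases ht.words w hw with e1 | ⟨hF, e1 | e1⟩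
  · have e2 : H1.W R .nil B S i = app (Y △ .nil) (.nil △ .nil) := e.symm.trans e1
    rcases h.lst hi h9 e2 with ⟨_, e3⟩ | ⟨_, e3⟩ | ⟨_, e3⟩ | ⟨_, e3⟩ | ⟨_, e3⟩ | ⟨_, hB, e3⟩
    · have := congrArg H1.len e3
      rw [H1.len_app, len_node, len_node, len_nil] at this
      omega
    · exact absurd (H1.node_inj e3).1 hY
    · exact absurd (H1.node_inj e3).1 nR
    · obtain ⟨e4, e5⟩ := H1.node_inj e3
      exact Or.inl ⟨e5.symm, e4⟩
    · have := congrArg H1.len e3
      rw [H1.len_app, len_node, len_node, len_nil] at this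
      omega
    · exact absurd (H1.node_inj e3).1 hY
  · have e2 : H1.W R .nil B S i = app Y ((.nil △ .nil) △ .nil) := e.symm.trans e1
    have lfn : (.nil △ .nil : BinaryTree Unit) ≠ .nil := by simp
    have cw : cyc (sX R B S w0 0) ≠ cyc w ∧ cyc (sX R B S w0 4) ≠ cyc w :=
      ⟨fun h => (hd _ hF).1 h.symm, fun h => (hd _ hF).2 h.symm⟩
    have ew : w = sX R B S w0 i := Subtype.ext (by rw [e, h.word w0 hi])
    rcases h.lstA hi h9 lfn e2 with ⟨_, _, e3⟩ | ⟨rfl, _⟩ | h5 | ⟨_, e3, _⟩ | ⟨rfl, _⟩ | h11 |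
      ⟨_, e3, e4⟩ | ⟨_, _, _, e3⟩ | h14 | ⟨_, _, e3, _⟩ | h15 | ⟨_, e3, _⟩ | ⟨_, _, e3⟩ | ⟨_, _, e3⟩ |
      ⟨_, _, e3⟩ | ⟨_, _, e3⟩
    · exact absurd e3 nR
    · exact absurd (by rw [ew]) cw.2
    · exact Or.inr (Or.inl h5)
    · exact absurd e3.symm (ne_nil_node h.one)
    · exact absurd (by rw [ew, cyc_eq.2 (h.same w0 (i := 0) (j := 10) (by simp))]) cw.1
    · exact Or.inr (Or.inr (Or.inl h11))
    · by_cases hB : B = .nil
      · exact Or.inl ⟨hB, e4⟩
      · have := congrArg H1.len e3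
        rw [H1.len_app, len_node, len_nil] at this
        have := H1.len_pos hB
        omega
    · exact absurd e3 hY
    · exact Or.inr (Or.inr (Or.inr (Or.inl h14)))
    · exact absurd e3.symm (ne_nil_node h.oneS)
    · exact Or.inr (Or.inr (Or.inr (Or.inr h15)))
    · exact absurd e3.symm (ne_nil_node h.oneB)
    · exact absurd e3 hY
    · exact absurd e3 hY
    · exact absurd e3 hY
    · exact absurd e3 hY
  · have e2 : H1.W R .nil B S i = .nil △ (.nil △ Y) := e.symm.trans e1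
    rcases h.fst hi h9 e2 with ⟨_, e3⟩ | ⟨_, e3⟩ | ⟨_, e3⟩ | ⟨_, e3⟩ | ⟨_, e3⟩ | ⟨_, hB, e3⟩
    · obtain ⟨R', e4, _⟩ := fst_app hR e3.symm
      exact absurd e4 (ne_nil_node h.one)
    · exact absurd (H1.node_inj e3).2 nR
    · exact absurd (H1.node_inj e3).1.symm hR
    · exact absurd (H1.node_inj e3).1.symm hS
    · obtain ⟨R', e4, _⟩ := fst_app hS e3.symm
      exact absurd e4 (ne_nil_node h.oneS)
    · exact Or.inl ⟨hB, (H1.node_inj e3).2⟩

/-! ### K' -/

theorem km_ne (h : SqD k R B S) {w0 : X k} (ht : IsTri (.nil △ .nil) Y .nil F g)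
    (hd : HD F R B S w0) : Y ≠ R := by
  obtain ⟨a, b, c, ha, hb, hc, h1, h2, h3, rfl, rfl⟩ := ht
  rintro rfl
  refine (hd (cyc c) (Or.inr rfl)).2 ?_
  congr 1
  apply Subtype.ext
  rw [hc, h.word w0 (by norm_num)]
  rfl

/-- **K' - J2B**, exact list -/
theorem kmW (h : SqD k R B S) {w0 : X k} (ht : IsTri (.nil △ .nil) Y .nil F g) (hY : Y ≠ .nil)
    (hd : HD F R B S w0) {w : X k} (hw : w ∈ g.B)
    {i : ℕ} (hi : i < 20) (e : w.1 = H1.W R .nil B S i) :
    (B = .nil ∧ Y = S) ∨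
    (i = 1 ∧ ∃ R', R = (.nil △ .nil) △ R' ∧ Y = app R' (.nil △ (.nil △ .nil))) ∨
    (i = 11 ∧ ∃ B', B = (.nil △ .nil) △ B' ∧ Y = app B' (.nil △ (.nil △ S))) := by
  have hR := h.ne
  have hS := h.neS
  have lY := H1.len_pos hY
  have nR := km_ne h ht hd
  have lR := H1.len_pos hR
  have lS := H1.len_pos hS
  have h3 := h.h3
  have z1 : OddHC.ht (BinaryTree.nil △ BinaryTree.nil : BinaryTree Unit) = 1 := rfl
  by_cases h9 : i = 9
  · exfalso
    subst h9
    rcases ht.words w hw with e1 | ⟨hF, e1 | e1⟩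
    · have e2 : H1.W R .nil B S 9 = .nil △ (Y △ .nil) := e.symm.trans e1
      exact nine_node (by simp) e2
    · have e2 : H1.W R .nil B S 9 = app Y (.nil △ (.nil △ .nil)) := e.symm.trans e1
      have e3 : H1.W R .nil B S 9 = app (app Y (.nil △ .nil)) (.nil △ .nil) := by
        rw [e2, H1.app_assoc]; rfl
      exact nine_app hR (H1.app_ne (by simp)) e3
    · have e2 : H1.W R .nil B S 9 = (.nil △ .nil) △ Y := e.symm.trans e1
      exact nine_node hY e2
  rcases ht.words w hw with e1 | ⟨hF, e1 | e1⟩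
  · have e2 : H1.W R .nil B S i = .nil △ (Y △ .nil) := e.symm.trans e1
    rcases h.fst hi h9 e2 with ⟨_, e3⟩ | ⟨_, e3⟩ | ⟨_, e3⟩ | ⟨_, e3⟩ | ⟨_, e3⟩ | ⟨_, hB, e3⟩
    · have := congrArg H1.len e3
      rw [H1.len_app, len_node, len_node, len_nil] at this
      omega
    · exact absurd (H1.node_inj e3).1 hY
    · exact absurd (H1.node_inj e3).1 nR
    · obtain ⟨e4, e5⟩ := H1.node_inj e3
      exact Or.inl ⟨e5.symm, e4⟩
    · have := congrArg H1.len e3
      rw [H1.len_app, len_node, len_node, len_nil] at this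
      omega
    · exact absurd (H1.node_inj e3).1 hY
  · have e2 : H1.W R .nil B S i = app Y (.nil △ (.nil △ .nil)) := e.symm.trans e1
    have e2' : H1.W R .nil B S i = app (app Y (.nil △ .nil)) (.nil △ .nil) := by
      rw [e2, H1.app_assoc]; rfl
    rcases h.lst hi h9 e2' with ⟨_, e3⟩ | ⟨_, e3⟩ | ⟨_, e3⟩ | ⟨_, e3⟩ | ⟨_, e3⟩ | ⟨_, hB, e3⟩
    · exact absurd (H1.app_snoc e3).1 nR
    · obtain ⟨R', e4, _⟩ := lst_node hR e3.symm
      exact absurd e4 (ne_app_lf h.one)
    · have := congrArg H1.len e3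
      rw [H1.len_app, len_node, len_node, len_nil] at this
      omega
    · by_cases hB : B = .nil
      · have := congrArg H1.len e3
        rw [hB, H1.len_app, len_node, len_node, len_nil] at this
        omega
      · obtain ⟨R', e4, _⟩ := lst_node hB e3.symm
        exact absurd e4 (ne_app_lf h.oneB)
    · obtain ⟨e4, e5⟩ := H1.app_snoc e3
      exact Or.inl ⟨e5.symm, e4⟩
    · obtain ⟨R', e4, _⟩ := lst_node hS e3.symm
      exact absurd e4 (ne_app_lf h.oneS)
  · have e2 : H1.W R .nil B S i = (.nil △ .nil) △ Y := e.symm.trans e1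
    have lfn : (.nil △ .nil : BinaryTree Unit) ≠ .nil := by simp
    have cw : cyc (sX R B S w0 0) ≠ cyc w ∧ cyc (sX R B S w0 4) ≠ cyc w :=
      ⟨fun h => (hd _ hF).1 h.symm, fun h => (hd _ hF).2 h.symm⟩
    have ew : w = sX R B S w0 i := Subtype.ext (by rw [e, h.word w0 hi])
    rcases h.fstA hi h9 lfn e2 with ⟨rfl, _⟩ | h1 | ⟨_, _, e3⟩ | ⟨_, _, e3⟩ | ⟨_, e3, _⟩ |
      ⟨_, _, e3⟩ | ⟨_, hB, _, e3⟩ | ⟨rfl, _⟩ | h11 | ⟨_, e3, _⟩ | ⟨_, S', h13, _⟩ | ⟨_, e3, _⟩ |
      ⟨_, S', h16, _⟩ | ⟨_, _, e3⟩ | ⟨_, _, e3⟩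
    · exact absurd (by rw [ew]) cw.1
    · exact Or.inr (Or.inl h1)
    · exact absurd e3 hY
    · exact absurd e3 nR
    · exact absurd e3.symm (ne_nil_node h.one)
    · exact absurd e3 hY
    · exact Or.inl ⟨hB, e3⟩
    · exact absurd (by rw [ew, cyc_eq.2 (h.same w0 (i := 0) (j := 10) (by simp))]) cw.1
    · exact Or.inr (Or.inr h11)
    · exact absurd e3.symm (ne_nil_node h.oneS)
    · exact absurd h13 (h.notop (by omega))
    · have := (H1.node_inj e3).2
      exact absurd this.symm hS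
    · exact absurd h16 (h.notop (by omega))
    · exact absurd e3 hY
    · exact absurd e3 hY

/-! ### L -/

/-- **L - J2B**, exact list (no condition on the groups) -/
theorem lW (h : SqD k R B S) (ht : IsTri (lp 1) Y (lp 1) F g) (hY : Y ≠ .nil)
    (hf : H1.fb Y = false) (hl : H1.lastB Y = false) {w : X k} (hw : w ∈ g.B)
    {i : ℕ} (hi : i < 20) (e : w.1 = H1.W R .nil B S i) :
    (i = 2 ∧ R = Y △ .nil) ∨ (i = 18 ∧ B = .nil ∧ S = Y △ .nil) ∨
    (i = 12 ∧ ∃ Y', Y = S △ Y' ∧ B = app Y' ((.nil △ .nil) △ .nil)) := by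
  by_cases h9 : i = 9
  · exfalso
    subst h9
    have e1 : lp 1 = (.nil △ .nil : BinaryTree Unit) := rfl
    rw [e1] at ht
    rcases ht.words w hw with e1 | ⟨hF, e1 | e1⟩
    · have e2 : H1.W R .nil B S 9 = .nil △ (Y △ (.nil △ .nil)) := e.symm.trans e1
      exact nine_node (by simp) e2
    · have e2 : H1.W R .nil B S 9 = app Y ((.nil △ .nil) △ (.nil △ .nil)) := e.symm.trans e1
      have e3 : H1.W R .nil B S 9 = app (app Y ((.nil △ .nil) △ .nil)) (.nil △ .nil) := by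
        rw [e2, H1.app_assoc]; rfl
      exact nine_app h.ne (H1.app_ne (by simp)) e3
    · have e2 : H1.W R .nil B S 9 = .nil △ ((.nil △ .nil) △ Y) := e.symm.trans e1
      exact nine_node (by simp) e2
  · exact h.lW2 ht hY hf hl hw hi h9 e

/-! ### Cr -/

/-- **Cr - J2B**, exact list -/
theorem crW (h : SqD k R B S) {w0 : X k} (hc : 2 ≤ c) (hY : c + 1 ≤ OddHC.ht Y) (hodd : Odd c)
    (ht : IsTri .nil Y (H1.ch c) F g) (hd : HD F R B S w0) {w : X k} (hw : w ∈ g.B)
    {i : ℕ} (hi : i < 20) (e : w.1 = H1.W R .nil B S i) :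
    (B = H1.ch c ∧ Y = .nil △ S) ∨
    (i = 5 ∧ ∃ R', R = app R' (H1.ch c △ .nil) ∧ Y = .nil △ (.nil △ R')) ∨
    (i = 11 ∧ ∃ S', S = app S' (H1.ch c △ .nil) ∧ Y = app B (.nil △ (.nil △ S'))) ∨
    (i = 14 ∧ ∃ B', B = app B' (H1.ch c △ .nil) ∧ Y = (.nil △ S) △ B') ∨
    (i = 15 ∧ ∃ B', B = app B' (H1.ch c △ .nil) ∧ Y = .nil △ (S △ B')) := by
  have hc3 : 3 ≤ c := by
    obtain ⟨n, hn⟩ := hodd
    omega
  have hR := h.ne
  have hS := h.neS
  have hYn := ht_ge_ne hY
  have lY := H1.len_pos hYn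
  have lR := H1.len_pos hR
  have lS := H1.len_pos hS
  have hcn : H1.ch c ≠ .nil := ch_ne (by omega)
  have hcn' : H1.ch (c - 1) ≠ .nil := ch_ne2 hc
  have hla : OddHC.ht (.nil △ .nil : BinaryTree Unit) = 1 := rfl
  have nlf : Y ≠ .nil △ .nil := by
    rintro rfl
    rw [hla] at hY
    omega
  by_cases h9 : i = 9
  · exfalso
    subst h9
    rcases ht.words w hw with e1 | ⟨hF, e1 | e1⟩
    · have e2 : H1.W R .nil B S 9 = app (Y △ .nil) (H1.ch (c - 1) △ .nil) := by
        rw [← ch_pred (by omega)]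
        exact e.symm.trans e1
      exact nine_app hR (by simp) e2
    · have e2 : H1.W R .nil B S 9 = app Y (H1.ch c △ .nil) := e.symm.trans e1
      exact nine_app hR hYn e2
    · have e2 : H1.W R .nil B S 9 = H1.ch (c - 1) △ (.nil △ Y) := by
        have e3 := e.symm.trans e1
        rw [ch_pred (show 1 ≤ c by omega)] at e3
        exact e3
      exact nine_node (by simp) e2
  rcases ht.words w hw with e1 | ⟨hF, e1 | e1⟩
  · -- host `(Y)[c]`
    have e2 : H1.W R .nil B S i = app (Y △ .nil) (H1.ch (c - 1) △ .nil) := by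
      rw [← ch_pred (by omega)]
      exact e.symm.trans e1
    rcases h.lstA hi h9 hcn' e2 with ⟨_, e3, _⟩ | ⟨_, R', _, e4⟩ | ⟨_, R', _, e4⟩ | ⟨_, _, e4⟩ |
      ⟨_, S', e3, e4⟩ | ⟨_, S', e3, e4⟩ |
      ⟨_, e3, _⟩ | ⟨_, _, _, e4⟩ | ⟨rfl, B', e3, e4⟩ | ⟨_, _, _, e4⟩ | ⟨_, B', e3, e4⟩ | ⟨_, _, e4⟩ |
      ⟨_, _, e4⟩ | ⟨_, _, e4⟩ | ⟨_, _, e4⟩ | ⟨_, _, e4⟩
    · exact absurd e3 (ch_lf (by omega))
    · exact absurd (H1.node_inj e4).1 nlf
    · exact absurd (H1.node_inj e4).1 hYn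
    · exact absurd (H1.node_inj e4).1 hYn
    · by_cases hB : B = .nil
      · subst hB
        exact absurd (H1.node_inj e4).1 nlf
      · have l := congrArg H1.len e4
        have := H1.len_pos hB
        rw [H1.len_app, len_node, len_node, len_nil] at l
        omega
    · by_cases hB : B = .nil
      · subst hB
        exact absurd (H1.node_inj e4).1 hYn
      · have l := congrArg H1.len e4
        have := H1.len_pos hB
        rw [H1.len_app, len_node, len_node, len_nil] at l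
        omega
    · exact absurd e3 (ch_app (by omega))
    · exact absurd e4 (by simp)
    · obtain ⟨e5, rfl⟩ := H1.node_inj e4
      left
      refine ⟨?_, e5⟩
      rw [e3, ch_pred (show 1 ≤ c by omega)]
      rfl
    · exact absurd (H1.node_inj e4).1 hYn
    · exact absurd (H1.node_inj e4).1 hYn
    · exact absurd (H1.node_inj e4).1 hYn
    · exact absurd e4 (by simp)
    · exact absurd e4 (by simp)
    · exact absurd e4 (by simp)
    · exact absurd e4 (by simp)
  · -- new `Y[c+1]`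
    have e2 : H1.W R .nil B S i = app Y (H1.ch c △ .nil) := e.symm.trans e1
    have cw : cyc (sX R B S w0 0) ≠ cyc w ∧ cyc (sX R B S w0 4) ≠ cyc w :=
      ⟨fun h => (hd _ hF).1 h.symm, fun h => (hd _ hF).2 h.symm⟩
    have ew : w = sX R B S w0 i := Subtype.ext (by rw [e, h.word w0 hi])
    rcases h.lstA hi h9 hcn e2 with ⟨_, e3, _⟩ | ⟨rfl, _⟩ | h5 | ⟨_, e3, _⟩ |
      ⟨rfl, _⟩ | h11 |
      ⟨_, e3, _⟩ | ⟨_, _, _, e4⟩ | h14 | ⟨_, hB, e3, _⟩ | h15 | ⟨_, e3, e4⟩ |
      ⟨_, _, e4⟩ | ⟨_, _, e4⟩ | ⟨_, _, e4⟩ | ⟨_, _, e4⟩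
    · exact absurd e3 (ch_lf (by omega))
    · exact absurd (by rw [ew]) cw.2
    · exact Or.inr (Or.inl h5)
    · exact absurd e3.symm (h.ne_ch c)
    · exact absurd (by rw [ew, cyc_eq.2 (h.same w0 (i := 0) (j := 10) (by simp))]) cw.1
    · exact Or.inr (Or.inr (Or.inl h11))
    · exact absurd e3 (ch_app (by omega))
    · exact absurd e4 hYn
    · exact Or.inr (Or.inr (Or.inr (Or.inl h14)))
    · exact absurd e3.symm (h.ne_chS hB c)
    · exact Or.inr (Or.inr (Or.inr (Or.inr h15)))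
    · exact Or.inl ⟨e3.symm, e4⟩
    · exact absurd e4 hYn
    · exact absurd e4 hYn
    · exact absurd e4 hYn
    · exact absurd e4 hYn
  · -- new `[c]()Y`
    have e2 : H1.W R .nil B S i = H1.ch (c - 1) △ (.nil △ Y) := by
      have e3 := e.symm.trans e1
      rw [ch_pred (show 1 ≤ c by omega)] at e3
      exact e3
    have cw : cyc (sX R B S w0 0) ≠ cyc w ∧ cyc (sX R B S w0 4) ≠ cyc w :=
      ⟨fun h => (hd _ hF).1 h.symm, fun h => (hd _ hF).2 h.symm⟩
    have ew : w = sX R B S w0 i := Subtype.ext (by rw [e, h.word w0 hi])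
    rcases h.fstA hi h9 hcn' e2 with ⟨rfl, _⟩ | ⟨_, R', e3, e4⟩ | ⟨_, _, e3⟩ | ⟨_, e3, _⟩ | ⟨_, e3, _⟩ |
      ⟨_, _, e3⟩ | ⟨_, hB, e3, _⟩ | ⟨rfl, _⟩ | ⟨_, B', e3, e4⟩ | ⟨_, e3, e4⟩ | ⟨_, S', e3, e4⟩ | ⟨_, e3, _⟩ |
      ⟨_, S', e3, e4⟩ | ⟨_, _, e3⟩ | ⟨_, _, e3⟩
    · exact absurd (by rw [ew]) cw.1
    · by_cases hR' : R' = .nil
      · subst hR'
        exact absurd (H1.node_inj e4).2 nlf
      · exact (cnt_second (A := H1.ch (c - 1)) (by rw [← e3]; exact h.one) hR' e4.symm).elim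
    · exact absurd e3 (by simp)
    · exact absurd e3 (ch_lf (by omega))
    · exact absurd e3.symm (h.ne_ch _)
    · exact absurd e3 (by simp)
    · exact absurd e3 (ch_lf (by omega))
    · exact absurd (by rw [ew, cyc_eq.2 (h.same w0 (i := 0) (j := 10) (by simp))]) cw.1
    · by_cases hB' : B' = .nil
      · subst hB'
        left
        refine ⟨?_, (H1.node_inj e4).2⟩
        rw [e3, ch_pred (show 1 ≤ c by omega)]
      · exact (cnt_second (A := H1.ch (c - 1)) (by rw [← e3]; exact h.oneB) hB' e4.symm).elim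
    · by_cases hB : B = .nil
      · subst hB
        exact absurd (H1.node_inj e4).2 hYn
      · obtain ⟨B', e5, _⟩ := fst_app hB e4.symm
        exact absurd e5 (ne_nil_node h.oneB)
    · by_cases hS' : S' = .nil
      · subst hS'
        have := (H1.node_inj e4).2
        exact absurd this hYn
      · exact (cnt_second (A := H1.ch (c - 1)) (by rw [← e3]; exact h.oneS) hS' e4.symm).elim
    · exact absurd e3 (ch_two hS)
    · by_cases hS' : S' = .nil
      · subst hS'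
        exact absurd (H1.node_inj e4).2 nlf
      · exact (cnt_second (A := H1.ch (c - 1)) (by rw [← e3]; exact h.oneS) hS' e4.symm).elim
    · exact absurd e3 (by simp)
    · exact absurd e3 (by simp)

/-! ### Cl -/

/-- **Cl - J2B**, exact list -/
theorem clW (h : SqD k R B S) {w0 : X k} (hc : 2 ≤ c) (hY : c + 1 ≤ OddHC.ht Y)
    (ht : IsTri (H1.ch c) Y .nil F g)
    (hd : HD F R B S w0) {w : X k} (hw : w ∈ g.B)
    {i : ℕ} (hi : i < 20) (e : w.1 = H1.W R .nil B S i) :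
    (i = 4 ∧ c = 2 ∧ R = Y △ .nil) ∨ (i = 10 ∧ c = 2 ∧ B = .nil ∧ S = Y △ .nil) ∨
    (i = 13 ∧ ∃ S', S = H1.ch c △ S' ∧ Y = app S' ((app B (.nil △ .nil)) △ .nil)) ∨
    (i = 16 ∧ ∃ S', S = H1.ch c △ S' ∧ Y = app S' (B △ (.nil △ .nil))) ∨
    (i = 1 ∧ ∃ R', R = H1.ch c △ R' ∧ Y = app R' (.nil △ (.nil △ .nil))) ∨
    (i = 11 ∧ ∃ B', B = H1.ch c △ B' ∧ Y = app B' (.nil △ (.nil △ S))) := by
  have hR := h.ne
  have hS := h.neS
  have hYn := ht_ge_ne hY
  have lY := H1.len_pos hYn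
  have lR := H1.len_pos hR
  have lS := H1.len_pos hS
  have hcn : H1.ch c ≠ .nil := ch_ne (by omega)
  have hcn' : H1.ch (c - 1) ≠ .nil := ch_ne2 hc
  have hla : OddHC.ht (.nil △ .nil : BinaryTree Unit) = 1 := rfl
  have nlf : Y ≠ .nil △ .nil := by
    rintro rfl
    rw [hla] at hY
    omega
  have lf2 : H1.ch (c - 1) = .nil △ .nil → c = 2 := by
    intro e
    have := congrArg OddHC.ht e
    rw [ht_ch, hla] at this
    omega
  by_cases h9 : i = 9
  · exfalso
    subst h9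
    rcases ht.words w hw with e1 | ⟨hF, e1 | e1⟩
    · have e2 : H1.W R .nil B S 9 = H1.ch (c - 1) △ (Y △ .nil) := by
        have e3 := e.symm.trans e1
        rw [ch_pred (show 1 ≤ c by omega)] at e3
        exact e3
      exact nine_node (by simp) e2
    · have e2 : H1.W R .nil B S 9 = app (app Y (.nil △ .nil)) (H1.ch (c - 1) △ .nil) := by
        have e3 := e.symm.trans e1
        rw [ch_pred (show 1 ≤ c by omega)] at e3
        rw [e3, H1.app_assoc]
        rfl
      exact nine_app hR (H1.app_ne (by simp)) e2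
    · have e2 : H1.W R .nil B S 9 = H1.ch c △ Y := e.symm.trans e1
      exact nine_node hYn e2
  rcases ht.words w hw with e1 | ⟨hF, e1 | e1⟩
  · -- host `[c](Y)`
    have e2 : H1.W R .nil B S i = H1.ch (c - 1) △ (Y △ .nil) := by
      have e3 := e.symm.trans e1
      rw [ch_pred (show 1 ≤ c by omega)] at e3
      exact e3
    rcases h.fstA hi h9 hcn' e2 with ⟨_, R', _, e4⟩ | ⟨_, R', _, e4⟩ | ⟨_, _, e3⟩ | ⟨_, e3, e4⟩ |
      ⟨_, _, e3⟩ | ⟨_, _, e3⟩ | ⟨_, hB, e3, e4⟩ | ⟨_, B', _, e4⟩ | ⟨_, B', _, e4⟩ | ⟨_, _, e4⟩ |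
      ⟨_, S', e3, e4⟩ | ⟨_, e3, _⟩ | ⟨_, S', e3, e4⟩ | ⟨_, _, e3⟩ | ⟨_, _, e3⟩
    · have e5 : app .nil (Y △ .nil) = app R' ((.nil △ .nil) △ .nil) := e4
      exact absurd (H1.app_snoc e5).2 nlf
    · have l := congrArg H1.len e4
      rw [H1.len_app, len_node, len_node, len_node, len_nil] at l
      omega
    · exact absurd e3 (by simp)
    · left
      exact ⟨by assumption, lf2 e3, e4.symm⟩
    · exact absurd (H1.node_inj e3).1 hYn
    · exact absurd e3 (by simp)
    · right; left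
      exact ⟨by assumption, lf2 e3, hB, e4.symm⟩
    · have l := congrArg H1.len e4
      rw [H1.len_app, len_node, len_node, len_nil] at l
      omega
    · have l := congrArg H1.len e4
      rw [H1.len_app, len_node, len_node, len_node, len_nil] at l
      omega
    · have e5 : app .nil (Y △ .nil) = app B (.nil △ .nil) := e4
      exact absurd (H1.app_snoc e5).2 hYn
    · have e5 : app .nil (Y △ .nil) = app S' ((app B (.nil △ .nil)) △ .nil) := e4
      obtain ⟨e6, e7⟩ := H1.app_snoc e5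
      have h1 := h.htS
      have h2 := h.htB
      rw [e3, ← e6] at h1
      rw [e7, ht_app, hla] at hY
      rw [ht_node, ht_ch] at h1
      have : OddHC.ht (BinaryTree.nil : BinaryTree Unit) = 0 := rfl
      have := h.h3
      omega
    · exact absurd e3 (ch_two hS)
    · have l := congrArg H1.len e4
      rw [H1.len_app, len_node, len_node, len_node, len_nil] at l
      omega
    · exact absurd e3 (by simp)
    · exact absurd e3 (by simp)
  · -- new `Y()[c]`
    have e2 : H1.W R .nil B S i = app (app Y (.nil △ .nil)) (H1.ch (c - 1) △ .nil) := by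
      have e3 := e.symm.trans e1
      rw [ch_pred (show 1 ≤ c by omega)] at e3
      rw [e3, H1.app_assoc]
      rfl
    have cw : cyc (sX R B S w0 0) ≠ cyc w ∧ cyc (sX R B S w0 4) ≠ cyc w :=
      ⟨fun h => (hd _ hF).1 h.symm, fun h => (hd _ hF).2 h.symm⟩
    have ew : w = sX R B S w0 i := Subtype.ext (by rw [e, h.word w0 hi])
    have key : ∀ {P Q : BinaryTree Unit}, (OddHC.cont (app P (Q △ .nil))).count 1 = 0 →
        ∀ {C : BinaryTree Unit}, P ≠ .nil → app Y (.nil △ .nil) ≠ C △ P := by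
      intro P Q hP C hPn e3
      obtain ⟨P', e4, _⟩ := lst_node hPn e3.symm
      exact ne_app_lf (cnt_app hP).1 e4
    rcases h.lstA hi h9 hcn' e2 with ⟨rfl, _⟩ | ⟨_, R', e3, e4⟩ | ⟨_, R', e3, e4⟩ | ⟨_, _, e4⟩ |
      ⟨rfl, _⟩ | ⟨_, S', e3, e4⟩ |
      ⟨_, _, e4⟩ | ⟨_, _, _, e4⟩ | ⟨_, B', e3, e4⟩ | ⟨_, _, _, e4⟩ | ⟨_, B', e3, e4⟩ | ⟨_, _, e4⟩ |
      ⟨_, _, e4⟩ | ⟨_, _, e4⟩ | ⟨_, _, e4⟩ | ⟨_, _, e4⟩
    · exact absurd (by rw [ew]) cw.1
    · by_cases hR' : R' = .nil
      · subst hR'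
        have e5 : app Y (.nil △ .nil) = app .nil ((.nil △ .nil) △ .nil) := e4
        have := (H1.app_snoc e5).2
        exact absurd this (by simp)
      · exact absurd e4 (key (by rw [← e3]; exact h.one) hR')
    · by_cases hR' : R' = .nil
      · subst hR'
        have e5 : app Y (.nil △ .nil) = app (.nil △ .nil) (.nil △ .nil) := e4
        exact absurd (H1.app_snoc e5).1 nlf
      · have e5 : app Y (.nil △ .nil) = app (.nil △ (.nil △ .nil)) R' := e4
        obtain ⟨R'', e6, _⟩ := lst_app hR' e5.symm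
        exact absurd e6 (ne_app_lf (cnt_app (by rw [← e3]; exact h.one)).1)
    · have e5 : app Y (.nil △ .nil) = app .nil (.nil △ .nil) := e4
      exact absurd (H1.app_snoc e5).1 hYn
    · exact absurd (by rw [ew, cyc_eq.2 (h.same w0 (i := 0) (j := 10) (by simp))]) cw.1
    · by_cases hS' : S' = .nil
      · subst hS'
        have e5 : app Y (.nil △ .nil) = app (app B (.nil △ .nil)) (.nil △ .nil) := by
          rw [e4, H1.app_assoc]; rfl
        have e6 := (H1.app_snoc e5).1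
        have h1 := h.htS
        have h2 := h.htB
        have e7 : S = H1.ch (c - 1) △ .nil := e3
        rw [e7, ht_node, ht_ch] at h1
        have z0 : OddHC.ht (BinaryTree.nil : BinaryTree Unit) = 0 := rfl
        rw [e6, ht_app, hla] at hY
        omega
      · have e5 : app (app B (.nil △ (.nil △ .nil))) S' = app Y (.nil △ .nil) := by
          rw [e4, H1.app_assoc]; rfl
        obtain ⟨R'', e6, _⟩ := lst_app hS' e5
        exact absurd e6 (ne_app_lf (cnt_app (by rw [← e3]; exact h.oneS)).1)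
    · exact absurd e4.symm (ne_app_lf h.oneS)
    · exact absurd e4 (H1.app_ne (by simp))
    · by_cases hB' : B' = .nil
      · subst hB'
        have l := congrArg H1.len e4
        rw [H1.len_app, len_node, len_node, len_nil] at l
        omega
      · exact absurd e4 (key (by rw [← e3]; exact h.oneB) hB')
    · have e5 : app Y (.nil △ .nil) = app .nil (.nil △ .nil) := e4
      exact absurd (H1.app_snoc e5).1 hYn
    · by_cases hB' : B' = .nil
      · subst hB'
        have e5 : app Y (.nil △ .nil) = app (.nil △ .nil) (S △ .nil) := e4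
        exact absurd (H1.app_snoc e5).2.symm hS
      · have e5 : app Y (.nil △ .nil) = app (.nil △ (S △ .nil)) B' := e4
        obtain ⟨R'', e6, _⟩ := lst_app hB' e5.symm
        exact absurd e6 (ne_app_lf (cnt_app (by rw [← e3]; exact h.oneB)).1)
    · have e5 : app Y (.nil △ .nil) = .nil △ S := e4
      obtain ⟨S', e6, _⟩ := lst_node hS e5.symm
      exact absurd e6 (ne_app_lf h.oneS)
    · exact absurd e4 (H1.app_ne (by simp))
    · exact absurd e4 (H1.app_ne (by simp))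
    · exact absurd e4 (H1.app_ne (by simp))
    · exact absurd e4 (H1.app_ne (by simp))
  · -- new `[c+1]Y`
    have e2 : H1.W R .nil B S i = H1.ch c △ Y := e.symm.trans e1
    have cw : cyc (sX R B S w0 0) ≠ cyc w ∧ cyc (sX R B S w0 4) ≠ cyc w :=
      ⟨fun h => (hd _ hF).1 h.symm, fun h => (hd _ hF).2 h.symm⟩
    have ew : w = sX R B S w0 i := Subtype.ext (by rw [e, h.word w0 hi])
    rcases h.fstA hi h9 hcn e2 with ⟨rfl, _⟩ | h1' | ⟨_, _, e3⟩ | ⟨_, e3, _⟩ | ⟨_, e3, _⟩ |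
      ⟨_, _, e3⟩ | ⟨_, hB, e3, _⟩ | ⟨rfl, _⟩ | h11 | ⟨_, e3, e4⟩ | h13 | ⟨_, e3, _⟩ |
      h16 | ⟨_, _, e3⟩ | ⟨_, _, e3⟩
    · exact absurd (by rw [ew]) cw.1
    · right; right; right; right; left
      exact h1'
    · exact absurd e3 hYn
    · exact absurd e3 (ch_lf (by omega))
    · exact absurd e3.symm (h.ne_ch _)
    · exact absurd e3 hYn
    · exact absurd e3 (ch_lf (by omega))
    · exact absurd (by rw [ew, cyc_eq.2 (h.same w0 (i := 0) (j := 10) (by simp))]) cw.1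
    · right; right; right; right; right
      exact h11
    · have h1 := h.htS
      have h2 := h.htB
      rw [← e3, ht_ch] at h1
      rw [e4, ht_app, hla] at hY
      have := h.h3
      omega
    · right; right; left
      exact h13
    · exact absurd e3 (ch_two hS)
    · right; right; right; left
      exact h16
    · exact absurd e3 hYn
    · exact absurd e3 hYn

/-! ### J2B against J2B -/

variable {R' B' S' : BinaryTree Unit}

/-- **J2B - J2B**: two disjoint pair gadgets have a common word only if `(S)B = S'(B')` or `(S')B' = S(B)` -/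
theorem meet (h : SqD k R B S) (h' : SqD k R' B' S') {w0 w0' : X k}
    (hd : cyc (sX R B S w0 0) ≠ cyc (sX R' B' S' w0' 0) ∧ cyc (sX R B S w0 0) ≠ cyc (sX R' B' S' w0' 4) ∧
      cyc (sX R B S w0 4) ≠ cyc (sX R' B' S' w0' 0) ∧ cyc (sX R B S w0 4) ≠ cyc (sX R' B' S' w0' 4))
    {i j : ℕ} (hi : i < 20) (hj : j < 20) (e : H1.W R .nil B S i = H1.W R' .nil B' S' j) :
    S △ B = app S' (B' △ .nil) ∨ S' △ B' = app S (B △ .nil) := by
  obtain ⟨d1, d2, d3, d4⟩ := hd
  have same : cyc (sX R B S w0 10) = cyc (sX R B S w0 0) :=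
    (cyc_eq.2 (h.same w0 (i := 0) (j := 10) (by simp))).symm
  have same' : cyc (sX R' B' S' w0' 10) = cyc (sX R' B' S' w0' 0) :=
    (cyc_eq.2 (h'.same w0' (i := 0) (j := 10) (by simp))).symm
  have eqw : ∀ {a b : ℕ}, a < 20 → b < 20 → H1.W R .nil B S a = H1.W R' .nil B' S' b →
      cyc (sX R B S w0 a) = cyc (sX R' B' S' w0' b) := by
    intro a b ha hb e1
    congr 1
    apply Subtype.ext
    rw [h.word w0 ha, h'.word w0' hb, e1]
  rcases h.meet h' hi hj e with (rfl | ⟨rfl, rfl⟩ | ⟨rfl, rfl⟩ | h1 | h1) | ⟨hi', hj', _⟩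
  · exact absurd (eqw (a := 0) (b := 0) (by norm_num) (by norm_num) rfl) d1
  · -- `B' = e`, `R = S'` : `(())R` = word 4 and word 10'
    refine absurd ?_ d3
    rw [← same']
    exact eqw (a := 4) (b := 10) (by norm_num) (by norm_num) rfl
  · refine absurd ?_ d2
    rw [← same]
    exact eqw (a := 10) (b := 4) (by norm_num) (by norm_num) rfl
  · exact Or.inl h1
  · exact Or.inr h1
  · exfalso
    have e1 := eqw hi hj e
    rcases hi' with rfl | rfl | rfl <;> rcases hj' with rfl | rfl | rfl <;>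
      first
      | exact d1 e1
      | exact d2 e1
      | exact d3 e1
      | exact d4 e1
      | exact d1 (e1.trans same')
      | exact d3 (e1.trans same')
      | exact d1 (same.symm.trans e1)
      | exact d2 (same.symm.trans e1)
      | exact d1 (same.symm.trans (e1.trans same'))

end J2B

end Pool.OddHC
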