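import Pool.Agent.Work.MP_8f87b2_h17.TyJ2B
import Pool.Agent.Work.MP_8f87b2_h97.P5b

/-!
# MP_8f87b2_co: type P5R = the hop `z = R(())`, `z' = (())R` merged with the E pair `(R)()`, `()(R)` (plain 5-cycle)

Words `((R)) > (R)() > R(()) > (())R > ()(R)` = the words 9, 6, 0, 4, 8 of `W R nil B S`; new T-cycles: all four below the
host `((R))`, no arcs. The only old word is `((R))`, of height `ht R + 2`.
-/

set_option autoImplicit false
set_option linter.unusedSimpArgs false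

namespace Pool.OddHC

open Finset Equiv BinaryTree Pool.Agent.Work.MP_8f87b2_co

open J3

variable {k : ℕ} {F : Set (Cyc k)} {g : DG k} {R B S : BinaryTree Unit}

namespace P5R

/-- the numbers of the words in `W R nil B S` -/
def ix : ℕ → ℕ
  | 0 => 9
  | 1 => 6
  | 2 => 0
  | 3 => 4
  | _ => 8

theorem w_eq (R B S : BinaryTree Unit) : ∀ i < 5, bw .nil R .nil .nil .nil (P5.ix i) = H1.W R .nil B S (ix i) := by
  intro i hi
  interval_cases i <;> rfl

theorem ix_lt (i : ℕ) : ix i < 20 := by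
  match i with
  | 0 => decide
  | 1 => decide
  | 2 => decide
  | 3 => decide
  | (n + 4) => exact (by norm_num : (8 : ℕ) < 20)

theorem ht_ix (h : 2 ≤ OddHC.ht R) : OddHC.ht (H1.W R .nil B S 9) = OddHC.ht R + 2 ∧
    OddHC.ht (H1.W R .nil B S 6) = OddHC.ht R + 1 ∧ OddHC.ht (H1.W R .nil B S 0) = OddHC.ht R ∧
    OddHC.ht (H1.W R .nil B S 4) = OddHC.ht R ∧ OddHC.ht (H1.W R .nil B S 8) = OddHC.ht R + 1 := by
  have en : OddHC.ht (.nil : BinaryTree Unit) = 0 := rfl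
  refine ⟨?_, ?_, ?_, ?_, ?_⟩
  · change OddHC.ht ((R △ .nil) △ .nil) = _
    simp only [ht_node, en]; omega
  · change OddHC.ht (R △ (.nil △ .nil)) = _
    simp only [ht_node, en]; omega
  · change OddHC.ht (app R ((.nil △ .nil) △ .nil)) = _
    simp only [ht_app, ht_node, en]; omega
  · change OddHC.ht ((.nil △ .nil) △ R) = _
    simp only [ht_node, en]; omega
  · change OddHC.ht (.nil △ (R △ .nil)) = _
    simp only [ht_node, en]; omega

end P5R

open P5R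

/-- TYPE P5R with its phase -/
def TyP5RR (R B S : BinaryTree Unit) (F : Set (Cyc k)) (g : DG k) : Prop :=
  SqD k R B S ∧ TyPent .nil R .nil .nil .nil F g

/-- TYPE P5R -/
def TyP5R (F : Set (Cyc k)) (g : DG k) : Prop := ∃ R B S : BinaryTree Unit, TyP5RR R B S F g

theorem TyP5RR.sqd (h : TyP5RR R B S F g) : SqD k R B S := h.1

theorem TyP5RR.hF (h : TyP5RR R B S F g) : ∀ w, w ∈ g.F ↔ cyc w ∈ F := h.2.hF

theorem TyP5RR.new (h : TyP5RR R B S F g) : ∀ c ∈ F, ∃ u ∈ g.B, cyc u = c := h.2.new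

theorem TyP5RR.old (h : TyP5RR R B S F g) : ∃ u ∈ g.B, cyc u ∉ F := h.2.old

theorem TyP5RR.arcs (h : TyP5RR R B S F g) : g.arcs = ∅ := h.2.arcs

theorem TyP5RR.path (h : TyP5RR R B S F g) : ∀ a ∈ g.arcs, ∃ n : ℕ,
    (TT ^ (n + 1)) a.1 = a.2 ∧ a.1 ∈ g.B ∧
    ∀ i < n, (TT ^ (i + 1)) a.1 ∉ g.B ∧ (TT ^ (i + 1)) a.1 ∈ innA a := h.2.path

theorem TyP5RR.abs (h : TyP5RR R B S F g) : g.Abs := h.2.abs

/-- the words: `((R))` is old, the other four are new -/
theorem TyP5RR.wd (h : TyP5RR R B S F g) : ∀ x ∈ g.B,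
    (x.1 = H1.W R .nil B S 9 ∧ cyc x ∉ F) ∨
    (cyc x ∈ F ∧ ∃ i ∈ [0, 4, 6, 8], x.1 = H1.W R .nil B S i) := by
  intro x hx
  obtain ⟨i, hi, e, h1, h0⟩ := h.2.mem x hx
  rw [w_eq R B S i hi] at e
  interval_cases i
  · exact Or.inl ⟨e, h0 rfl⟩
  · exact Or.inr ⟨h1 (by omega), 6, by simp, e⟩
  · exact Or.inr ⟨h1 (by omega), 0, by simp, e⟩
  · exact Or.inr ⟨h1 (by omega), 4, by simp, e⟩
  · exact Or.inr ⟨h1 (by omega), 8, by simp, e⟩

/-- the words are words of the twenty -/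
theorem TyP5RR.words5 (h : TyP5RR R B S F g) : ∀ x ∈ g.B, ∃ i ∈ [0, 4, 6, 8, 9], x.1 = H1.W R .nil B S i := by
  intro x hx
  rcases h.wd x hx with ⟨e, -⟩ | ⟨-, i, hi, e⟩
  · exact ⟨9, by simp, e⟩
  · refine ⟨i, ?_, e⟩
    simp only [List.mem_cons, List.not_mem_nil, or_false] at hi ⊢
    tauto

theorem TyP5RR.words (h : TyP5RR R B S F g) : ∀ x ∈ g.B, ∃ i < 20, x.1 = H1.W R .nil B S i := by
  intro x hx
  obtain ⟨i, hi, e⟩ := h.words5 x hx
  exact ⟨i, (by decide : ∀ i ∈ [0, 4, 6, 8, 9], i < 20) i hi, e⟩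

/-- the new T-cycles -/
theorem TyP5RR.memF (h : TyP5RR R B S F g) (w0 : X k) (c : Cyc k) : c ∈ F ↔
    c = cyc (sX R B S w0 0) ∨ c = cyc (sX R B S w0 4) ∨ c = cyc (sX R B S w0 6) ∨ c = cyc (sX R B S w0 8) := by
  obtain ⟨hq, w, hw, hn, rfl, rfl⟩ := h
  have e : ∀ i < 5, w i = sX R B S w0 (ix i) := by
    intro i hi
    apply Subtype.ext
    rw [hw i hi, w_eq R B S i hi, hq.word w0 (ix_lt i)]
  have e1 : w 1 = sX R B S w0 6 := e 1 (by omega)
  have e2 : w 2 = sX R B S w0 0 := e 2 (by omega)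
  have e3 : w 3 = sX R B S w0 4 := e 3 (by omega)
  have e4 : w 4 = sX R B S w0 8 := e 4 (by omega)
  simp only [F4, Set.mem_insert_iff, Set.mem_singleton_iff, e1, e2, e3, e4]
  tauto

theorem TyP5RR.mem0 (h : TyP5RR R B S F g) (w0 : X k) : cyc (sX R B S w0 0) ∈ F := (h.memF w0 _).2 (Or.inl rfl)

theorem TyP5RR.mem4 (h : TyP5RR R B S F g) (w0 : X k) : cyc (sX R B S w0 4) ∈ F :=
  (h.memF w0 _).2 (Or.inr (Or.inl rfl))

theorem TyP5RR.mem6 (h : TyP5RR R B S F g) (w0 : X k) : cyc (sX R B S w0 6) ∈ F :=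
  (h.memF w0 _).2 (Or.inr (Or.inr (Or.inl rfl)))

theorem TyP5RR.mem8 (h : TyP5RR R B S F g) (w0 : X k) : cyc (sX R B S w0 8) ∈ F :=
  (h.memF w0 _).2 (Or.inr (Or.inr (Or.inr rfl)))

/-- the four new T-cycles are different -/
theorem TyP5RR.ne (h : TyP5RR R B S F g) (w0 : X k) : cyc (sX R B S w0 0) ≠ cyc (sX R B S w0 4) ∧
    cyc (sX R B S w0 6) ≠ cyc (sX R B S w0 8) := by
  obtain ⟨hq, w, hw, hn, rfl, rfl⟩ := h
  have e : ∀ i < 5, w i = sX R B S w0 (ix i) := by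
    intro i hi
    apply Subtype.ext
    rw [hw i hi, w_eq R B S i hi, hq.word w0 (ix_lt i)]
  have e1 : w 1 = sX R B S w0 6 := e 1 (by omega)
  have e2 : w 2 = sX R B S w0 0 := e 2 (by omega)
  have e3 : w 3 = sX R B S w0 4 := e 3 (by omega)
  have e4 : w 4 = sX R B S w0 8 := e 4 (by omega)
  rw [← e1, ← e2, ← e3, ← e4]
  exact ⟨fun h => absurd (hn 2 (by omega) 3 (by omega) h) (by omega),
    fun h => absurd (hn 1 (by omega) 4 (by omega) h) (by omega)⟩

/-- heights of the new T-cycles -/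
theorem TyP5RR.htF (h : TyP5RR R B S F g) : ∀ c ∈ F, htc c = OddHC.ht R ∨ htc c = OddHC.ht R + 1 := by
  intro c hc
  obtain ⟨x, hx, rfl⟩ := h.new c hc
  have h3 := h.1.h3
  obtain ⟨t9, t6, t0, t4, t8⟩ := ht_ix (R := R) (B := B) (S := S) (by omega)
  rw [htc_cyc]
  rcases h.wd x hx with ⟨-, h3⟩ | ⟨-, i, hi, e⟩
  · exact absurd hc h3
  · rw [e]
    simp only [List.mem_cons, List.not_mem_nil, or_false] at hi
    rcases hi with rfl | rfl | rfl | rfl
    · exact Or.inl t0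
    · exact Or.inl t4
    · exact Or.inr t6
    · exact Or.inr t8

/-- contents of the new T-cycles -/
theorem TyP5RR.contF (h : TyP5RR R B S F g) : ∀ c ∈ F, contc c = OddHC.cont R + {2} ∨
    contc c = raise (OddHC.cont R) + {1} := by
  intro c hc
  obtain ⟨x, hx, rfl⟩ := h.new c hc
  rw [contc_cyc]
  rcases h.wd x hx with ⟨-, h3⟩ | ⟨-, i, hi, e⟩
  · exact absurd hc h3
  · rw [e]
    simp only [List.mem_cons, List.not_mem_nil, or_false] at hi
    rcases hi with rfl | rfl | rfl | rfl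
    · left
      change OddHC.cont (app R ((.nil △ .nil) △ .nil)) = _
      rw [cont_app, cont_node, cont_node, raise_nil, cont_nil, add_zero]
      rfl
    · left
      change OddHC.cont ((.nil △ .nil) △ R) = _
      rw [cont_node, cont_node, raise_nil, cont_nil, add_zero, add_comm]
      rfl
    · right
      change OddHC.cont (R △ (.nil △ .nil)) = _
      rw [cont_node, cont_node, raise_nil, cont_nil, add_zero]
    · right
      change OddHC.cont (.nil △ (R △ .nil)) = _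
      rw [cont_node, cont_node, raise_nil, cont_nil, add_zero, add_comm]

/-- RANK: the old word `((R))` is higher than all new T-cycles -/
theorem TyP5RR.rank (h : TyP5RR R B S F g) : ∀ x ∈ g.B, cyc x ∈ F ∨ ∀ c ∈ F, htc c < htc (cyc x) := by
  intro x hx
  have h3 := h.1.h3
  rcases h.wd x hx with ⟨e, -⟩ | ⟨h1, -⟩
  · right
    intro c hcF
    rw [htc_cyc, e, (ht_ix (R := R) (B := B) (S := S) (by omega)).1]
    rcases h.htF c hcF with h | h <;> omega
  · exact Or.inl h1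

/-- EXISTENCE of P5R: the hop `R(())`, `(())R` and the E pair `(R)()`, `()(R)` -/
theorem TyP5RR.ex (h : SqD k R B S) {w0 : X k} (h04 : cyc (sX R B S w0 0) ≠ cyc (sX R B S w0 4))
    (h68 : cyc (sX R B S w0 6) ≠ cyc (sX R B S w0 8)) :
    ∃ g, TyP5RR R B S {cyc (sX R B S w0 0), cyc (sX R B S w0 4), cyc (sX R B S w0 6), cyc (sX R B S w0 8)} g := by
  have h3 := h.h3
  obtain ⟨t9, t6, t0, t4, t8⟩ := ht_ix (R := R) (B := B) (S := S) (by omega)
  have hh : ∀ i < 5, htc (cyc (sX R B S w0 (ix i))) = OddHC.ht (H1.W R .nil B S (ix i)) := by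
    intro i hi
    rw [htc_cyc, h.word w0 (ix_lt i)]
  have a0 := hh 0 (by omega)
  have a1 := hh 1 (by omega)
  have a2 := hh 2 (by omega)
  have a3 := hh 3 (by omega)
  have a4 := hh 4 (by omega)
  change htc (cyc (sX R B S w0 9)) = OddHC.ht (H1.W R .nil B S 9) at a0
  change htc (cyc (sX R B S w0 6)) = OddHC.ht (H1.W R .nil B S 6) at a1
  change htc (cyc (sX R B S w0 0)) = OddHC.ht (H1.W R .nil B S 0) at a2
  change htc (cyc (sX R B S w0 4)) = OddHC.ht (H1.W R .nil B S 4) at a3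
  change htc (cyc (sX R B S w0 8)) = OddHC.ht (H1.W R .nil B S 8) at a4
  have key : ∀ i < 5, ∀ j < 5, cyc (sX R B S w0 (ix i)) = cyc (sX R B S w0 (ix j)) → i = j := by
    intro i hi j hj e
    have e' := congrArg htc e
    interval_cases i <;> interval_cases j <;> simp only [ix] at e e' <;> first
      | rfl
      | exact absurd e h04
      | exact absurd e.symm h04
      | exact absurd e h68
      | exact absurd e.symm h68
      | (exfalso; omega)
  refine ⟨cDG ((range 5).image fun i => sX R B S w0 (ix i)) (F4 fun i => sX R B S w0 (ix i)), h, _, ?_, key, ?_, rfl⟩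
  · intro i hi
    rw [w_eq R B S i hi, h.word w0 (ix_lt i)]
  · ext c
    simp only [F4, ix, Set.mem_insert_iff, Set.mem_singleton_iff]
    tauto

theorem TyP5R.hF (h : TyP5R F g) : ∀ w, w ∈ g.F ↔ cyc w ∈ F := by
  obtain ⟨R, B, S, h⟩ := h
  exact h.hF

theorem TyP5R.new (h : TyP5R F g) : ∀ c ∈ F, ∃ u ∈ g.B, cyc u = c := by
  obtain ⟨R, B, S, h⟩ := h
  exact h.new

theorem TyP5R.old (h : TyP5R F g) : ∃ u ∈ g.B, cyc u ∉ F := by
  obtain ⟨R, B, S, h⟩ := h
  exact h.old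

theorem TyP5R.arcs (h : TyP5R F g) : g.arcs = ∅ := by
  obtain ⟨R, B, S, h⟩ := h
  exact h.arcs

theorem TyP5R.path (h : TyP5R F g) : ∀ a ∈ g.arcs, ∃ n : ℕ,
    (TT ^ (n + 1)) a.1 = a.2 ∧ a.1 ∈ g.B ∧
    ∀ i < n, (TT ^ (i + 1)) a.1 ∉ g.B ∧ (TT ^ (i + 1)) a.1 ∈ innA a := by
  obtain ⟨R, B, S, h⟩ := h
  exact h.path

theorem TyP5R.abs (h : TyP5R F g) : g.Abs := by
  obtain ⟨R, B, S, h⟩ := h
  exact h.abs

theorem TyP5R.rank (h : TyP5R F g) : ∀ x ∈ g.B, cyc x ∈ F ∨ ∀ c ∈ F, htc c < htc (cyc x) := by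
  obtain ⟨R, B, S, h⟩ := h
  exact h.rank

end Pool.OddHC
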