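import Pool.Agent.Work.MP_8f87b2_h43.P5RW

/-!
# MP_8f87b2_co: word rows of P5R against windows A; heights
-/

set_option autoImplicit false
set_option linter.unusedSimpArgs false
set_option linter.unusedVariables false

namespace Pool.OddHC

open Finset Equiv BinaryTree Pool.Agent.Work.MP_8f87b2_co J3 MV

variable {k q : ℕ} {F F' : Set (Cyc k)} {g g' : DG k} {R B S : BinaryTree Unit}

/-- **P5R against A**: windows with a part 1 never; without part 1 only helper16's `Con` -/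
theorem TyP5RR.w_A (h : TyP5RR R B S F g) (h' : TyA F' g')
    (hx : ∀ q B1 H s B2 w0, H1.NodeG k q B1 H s B2 → 1 ∉ cont (H1.gR B1 H s B2) →
      g' = gad20 (H1.gX q B1 H s B2 w0) →
      ¬ Con q R B S (H1.gR B1 H s B2) B2 (Tsq.sq (H1.gR B1 H s B2)).1) : ∀ w ∈ g.B, w ∉ g'.B := by
  obtain ⟨q, B1, H, s, B2, w0, hg, rfl, rfl⟩ := h'
  intro w hw hw'
  obtain ⟨i, hi5, e⟩ := h.words5 w hw
  obtain ⟨hi, h14⟩ := (by decide : ∀ i ∈ [0, 4, 6, 8, 9], i < 20 ∧ i ≠ 14) i hi5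
  obtain ⟨j, hj, rfl⟩ := mem_gad20.1 hw'
  rw [hg.word w0 hj] at e
  by_cases h1 : 1 ∈ cont (H1.gR B1 H s B2)
  · exact h14 (a1W hg h1 h.sqd hj hi e).2.1
  · exact hx q B1 H s B2 w0 hg h1 rfl (win0 h.sqd (WD.ofA hg h1) hi hj e.symm)

/-- windows A with a part 1: no condition -/
theorem TyP5RR.w_A1 (h : TyP5RR R B S F g) (h' : TyA F' g') (h1 : ∀ c ∈ F', 1 ∈ contc c) :
    ∀ w ∈ g.B, w ∉ g'.B := by
  obtain ⟨q, B1, H, s, B2, w0, hg, rfl, rfl⟩ := h'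
  have c1 := h1 _ rfl
  rw [contc_cyc, hg.cont0] at c1
  have c2 : 1 ∈ cont (H1.gR B1 H s B2) := by
    rcases Multiset.mem_add.1 c1 with c2 | c2
    · exact c2
    · rw [Multiset.mem_singleton] at c2
      omega
  intro w hw hw'
  obtain ⟨i, hi5, e⟩ := h.words5 w hw
  obtain ⟨hi, h14⟩ := (by decide : ∀ i ∈ [0, 4, 6, 8, 9], i < 20 ∧ i ≠ 14) i hi5
  obtain ⟨j, hj, rfl⟩ := mem_gad20.1 hw'
  rw [hg.word w0 hj] at e
  exact h14 (a1W hg c2 h.sqd hj hi e).2.1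

/-- rows against the bare windows with three parts and for `a >= 2` -/
theorem TyP5RR.w_Rq2 (h : TyP5RR R B S F g) (h' : TyRq q F' g') (hq : 2 ≤ q) :
    ∀ w ∈ g.B, w ∉ g'.B := by
  refine h.w_Rq h' fun R' B' S' _ _ _ hc => ?_
  obtain ⟨Y, _, h1 | h1⟩ := hc
  · have := h1.1
    omega
  · have := h1.1
    omega

theorem TyP5RR.w_Sq2 (h : TyP5RR R B S F g) (h' : TySq q F' g') (hq : 2 ≤ q) :
    ∀ w ∈ g.B, w ∉ g'.B := by
  refine h.w_Sq h' fun R' B' S' _ _ _ hc => ?_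
  obtain ⟨Y, _, h1 | h1⟩ := hc
  · have := h1.1
    omega
  · have := h1.1
    omega

end Pool.OddHC
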