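import Pool.Agent.Work.MP_8f87b2_h43.P5R
import Pool.Agent.Work.MP_8f87b2_h25.J2Bi
import Pool.Agent.Work.MP_8f87b2_h50.RqJ2T

/-!
# MP_8f87b2_co: inner rows of P5R

P5R has no arcs (rows OUT of P5R are empty); its words are words of the twenty (`toJ2D`, `jwd`), so all rows INTO the words of
`SqD k R B S` apply.
-/

set_option autoImplicit false

namespace Pool.OddHC

open Finset Equiv BinaryTree Pool.Agent.Work.MP_8f87b2_co

open J3

variable {k : ℕ} {F F' : Set (Cyc k)} {g g' : DG k} {R B S : BinaryTree Unit}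

/-- rows OUT of P5R -/
theorem TyP5RR.inner_out (h : TyP5RR R B S F g) : ∀ p ∈ g.arcs, ∀ w ∈ innA p, w ∉ g'.B := by
  intro p hp
  rw [h.arcs] at hp
  exact absurd hp (Set.notMem_empty _)

theorem TyP5RR.wordsX (h : TyP5RR R B S F g) (w0 : X k) : ∀ w ∈ g.B, ∃ i < 20, w = sX R B S w0 i := by
  intro w hw
  obtain ⟨i, hi, e⟩ := h.words w hw
  exact ⟨i, hi, Subtype.ext (by rw [h.sqd.word w0 hi, e])⟩

theorem TyP5RR.toJ2D (h : TyP5RR R B S F g) (w0 : X k) : J2D R B S w0 F g :=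
  ⟨h.sqd, h.wordsX w0, fun p hp => by rw [h.arcs] at hp; exact absurd hp (Set.notMem_empty _), h.mem0 w0, h.mem4 w0⟩

theorem TyP5RR.jwd (h : TyP5RR R B S F g) : J3.JWd R B S g.B := by
  intro w hw
  exact h.words w hw

end Pool.OddHC
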