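import Pool.Agent.Work.MP_8f87b2_h43.P5R
import Pool.Agent.Work.MP_8f87b2_h43.J2BW
import Pool.Agent.Work.MP_8f87b2_h84.J2W
import Pool.Agent.Work.MP_8f87b2_h16.JBW

/-!
# MP_8f87b2_co: word rows of P5R

No common word with E, K, K', L, Cr, J1, J4, JG, T, J2B, JV, JE, P5R; with Cl only `c = 2`, `R = (Y)`; with bare windows and
windows A only helper16's `Con` with `Y = R`.
-/

set_option autoImplicit false
set_option linter.unusedSimpArgs false
set_option linter.unusedVariables false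

namespace Pool.OddHC

open Finset Equiv BinaryTree Pool.Agent.Work.MP_8f87b2_co

open J3

variable {k q c : ℕ} {F F' : Set (Cyc k)} {g g' : DG k} {R B S R' B' S' P Q M Y : BinaryTree Unit}

namespace P5R

/-- against a triple: the common word is `((R))`, or it is the old word of the triple -/
theorem tri (h : TyP5RR R B S F g) (ht : IsTri P Q M F' g') (hd : ∀ c ∈ F, c ∉ F') {w : X k} (hw : w ∈ g.B)
    (hw' : w ∈ g'.B) :
    (w1 P Q M = (R △ .nil) △ .nil ∨ w1 Q M P = (R △ .nil) △ .nil ∨ w1 M P Q = (R △ .nil) △ .nil) ∨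
    ∃ i ∈ [0, 4, 6, 8], w1 P Q M = H1.W R .nil B S i := by
  rcases h.wd w hw with ⟨e, -⟩ | ⟨hF, i, hi, e⟩
  · left
    have e' : w.1 = (R △ .nil) △ .nil := e
    rcases ht.words w hw' with h1 | ⟨-, h1 | h1⟩
    · exact Or.inl (h1.symm.trans e')
    · exact Or.inr (Or.inl (h1.symm.trans e'))
    · exact Or.inr (Or.inr (h1.symm.trans e'))
  · right
    rcases ht.words w hw' with h1 | ⟨h2, -⟩
    · exact ⟨i, hi, h1.symm.trans e⟩
    · exact absurd h2 (hd _ hF)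

/-- the new word `Q(M)P` of a triple is in its group -/
theorem tri_b (ht : IsTri P Q M F' g') {x : X k} (e : x.1 = w1 Q M P) : cyc x ∈ F' := by
  obtain ⟨a, b, c, ha, hb, hc, h1, h2, h3, rfl, rfl⟩ := ht
  have : x = b := Subtype.ext (e.trans hb.symm)
  rw [this]
  exact Or.inl rfl

theorem tri_c (ht : IsTri P Q M F' g') {x : X k} (e : x.1 = w1 M P Q) : cyc x ∈ F' := by
  obtain ⟨a, b, c, ha, hb, hc, h1, h2, h3, rfl, rfl⟩ := ht
  have : x = c := Subtype.ext (e.trans hc.symm)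
  rw [this]
  exact Or.inr rfl

theorem app_prime {A C Z : BinaryTree Unit} (hA : A ≠ .nil) (hC : C ≠ .nil) : app A C ≠ Z △ .nil := by
  intro e
  cases A with
  | nil => exact hA rfl
  | node _ A1 A2 => exact H1.app_ne hC (H1.node_inj e).2

theorem lf_ne : (.nil △ .nil : BinaryTree Unit) ≠ .nil := by simp

end P5R

open P5R

/-- **P5R - E**: never -/
theorem TyP5RR.dis_E (h : TyP5RR R B S F g) (ht : IsTri .nil Y .nil F' g') (hd : ∀ c ∈ F, c ∉ F') :
    ∀ w ∈ g.B, w ∉ g'.B := by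
  intro w hw hw'
  have hR := h.sqd.ne
  have nR : Y ≠ R △ .nil := by
    rintro rfl
    refine hd _ (h.mem6 w) (tri_b ht ?_)
    rw [h.sqd.word w (by norm_num)]
    rfl
  rcases tri h ht hd hw hw' with (e | e | e) | ⟨i, hi, e⟩
  · have e' : (Y △ .nil : BinaryTree Unit) = (R △ .nil) △ .nil := e
    exact nR (H1.node_inj e').1
  · have e' : app Y (.nil △ .nil) = (R △ .nil) △ .nil := e
    by_cases hY : Y = .nil
    · subst hY
      exact absurd (H1.node_inj e').1.symm (by simp)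
    · exact app_prime hY lf_ne e'
  · have e' : (.nil △ Y : BinaryTree Unit) = (R △ .nil) △ .nil := e
    exact absurd (H1.node_inj e').1.symm (by simp)
  · simp only [List.mem_cons, List.not_mem_nil, or_false] at hi
    rcases hi with rfl | rfl | rfl | rfl
    · have e' : (Y △ .nil : BinaryTree Unit) = app R ((.nil △ .nil) △ .nil) := e
      exact app_prime hR (by simp) e'.symm
    · have e' : (Y △ .nil : BinaryTree Unit) = (.nil △ .nil) △ R := e
      exact hR (H1.node_inj e').2.symm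
    · have e' : (Y △ .nil : BinaryTree Unit) = R △ (.nil △ .nil) := e
      exact absurd (H1.node_inj e').2.symm (by simp)
    · have e' : (Y △ .nil : BinaryTree Unit) = .nil △ (R △ .nil) := e
      exact absurd (H1.node_inj e').2.symm (by simp)

/-- **P5R - K**: never -/
theorem TyP5RR.dis_K (h : TyP5RR R B S F g) (ht : IsTri .nil Y (.nil △ .nil) F' g') (hY : Y ≠ .nil)
    (hd : ∀ c ∈ F, c ∉ F') : ∀ w ∈ g.B, w ∉ g'.B := by
  intro w hw hw'
  have hR := h.sqd.ne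
  have nR : Y ≠ R := by
    rintro rfl
    refine hd _ (h.mem0 w) (tri_b ht ?_)
    rw [h.sqd.word w (by norm_num)]
    rfl
  rcases tri h ht hd hw hw' with (e | e | e) | ⟨i, hi, e⟩
  · have e' : (Y △ (.nil △ .nil) : BinaryTree Unit) = (R △ .nil) △ .nil := e
    exact absurd (H1.node_inj e').2 (by simp)
  · have e' : app Y ((.nil △ .nil) △ .nil) = (R △ .nil) △ .nil := e
    exact app_prime hY (by simp) e'
  · have e' : (.nil △ (.nil △ Y) : BinaryTree Unit) = (R △ .nil) △ .nil := e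
    exact absurd (H1.node_inj e').2 (by simp)
  · simp only [List.mem_cons, List.not_mem_nil, or_false] at hi
    rcases hi with rfl | rfl | rfl | rfl
    · have e' : app (Y △ .nil) (.nil △ .nil) = app R ((.nil △ .nil) △ .nil) := e
      exact absurd (H1.app_snoc e').2.symm (by simp)
    · have e' : (Y △ (.nil △ .nil) : BinaryTree Unit) = (.nil △ .nil) △ R := e
      have h3 := h.sqd.h3
      rw [← (H1.node_inj e').2] at h3
      have : OddHC.ht (BinaryTree.nil △ BinaryTree.nil : BinaryTree Unit) = 1 := rfl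
      omega
    · have e' : (Y △ (.nil △ .nil) : BinaryTree Unit) = R △ (.nil △ .nil) := e
      exact nR (H1.node_inj e').1
    · have e' : (Y △ (.nil △ .nil) : BinaryTree Unit) = .nil △ (R △ .nil) := e
      exact hY (H1.node_inj e').1

/-- **P5R - K'**: never -/
theorem TyP5RR.dis_Km (h : TyP5RR R B S F g) (ht : IsTri (.nil △ .nil) Y .nil F' g') (hY : Y ≠ .nil)
    (hd : ∀ c ∈ F, c ∉ F') : ∀ w ∈ g.B, w ∉ g'.B := by
  intro w hw hw'
  have hR := h.sqd.ne
  have nR : Y ≠ R := by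
    rintro rfl
    refine hd _ (h.mem4 w) (tri_c ht ?_)
    rw [h.sqd.word w (by norm_num)]
    rfl
  rcases tri h ht hd hw hw' with (e | e | e) | ⟨i, hi, e⟩
  · have e' : (.nil △ (Y △ .nil) : BinaryTree Unit) = (R △ .nil) △ .nil := e
    exact absurd (H1.node_inj e').2 (by simp)
  · have e' : app Y (.nil △ (.nil △ .nil)) = (R △ .nil) △ .nil := e
    exact app_prime hY (by simp) e'
  · have e' : ((.nil △ .nil) △ Y : BinaryTree Unit) = (R △ .nil) △ .nil := e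
    exact hY (H1.node_inj e').2
  · simp only [List.mem_cons, List.not_mem_nil, or_false] at hi
    rcases hi with rfl | rfl | rfl | rfl
    · have e' : (.nil △ (Y △ .nil) : BinaryTree Unit) = app R ((.nil △ .nil) △ .nil) := e
      have e2 : app (.nil △ .nil) (Y △ .nil) = app R ((.nil △ .nil) △ .nil) := e'
      have h3 := h.sqd.h3
      rw [← (H1.app_snoc e2).1] at h3
      have : OddHC.ht (BinaryTree.nil △ BinaryTree.nil : BinaryTree Unit) = 1 := rfl
      omega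
    · have e' : (.nil △ (Y △ .nil) : BinaryTree Unit) = (.nil △ .nil) △ R := e
      exact absurd (H1.node_inj e').1.symm (by simp)
    · have e' : (.nil △ (Y △ .nil) : BinaryTree Unit) = R △ (.nil △ .nil) := e
      exact hR (H1.node_inj e').1.symm
    · have e' : (.nil △ (Y △ .nil) : BinaryTree Unit) = .nil △ (R △ .nil) := e
      exact nR (H1.node_inj (H1.node_inj e').2).1

/-- **P5R - L**: never -/
theorem TyP5RR.dis_L (h : TyP5RR R B S F g) (ht : IsTri (lp 1) Y (lp 1) F' g') (hY : Y ≠ .nil)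
    (hd : ∀ c ∈ F, c ∉ F') : ∀ w ∈ g.B, w ∉ g'.B := by
  intro w hw hw'
  have hR := h.sqd.ne
  have e1 : lp 1 = (.nil △ .nil : BinaryTree Unit) := rfl
  rw [e1] at ht
  rcases tri h ht hd hw hw' with (e | e | e) | ⟨i, hi, e⟩
  · have e' : (.nil △ (Y △ (.nil △ .nil)) : BinaryTree Unit) = (R △ .nil) △ .nil := e
    exact absurd (H1.node_inj e').2 (by simp)
  · have e' : app Y ((.nil △ .nil) △ (.nil △ .nil)) = (R △ .nil) △ .nil := e
    exact app_prime hY (by simp) e'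
  · have e' : (.nil △ ((.nil △ .nil) △ Y) : BinaryTree Unit) = (R △ .nil) △ .nil := e
    exact absurd (H1.node_inj e').2 (by simp)
  · simp only [List.mem_cons, List.not_mem_nil, or_false] at hi
    rcases hi with rfl | rfl | rfl | rfl
    · have e' : (.nil △ (Y △ (.nil △ .nil)) : BinaryTree Unit) = app R ((.nil △ .nil) △ .nil) := e
      have e2 : app (.nil △ (Y △ .nil)) (.nil △ .nil) = app R ((.nil △ .nil) △ .nil) := e'
      exact absurd (H1.app_snoc e2).2.symm (by simp)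
    · have e' : (.nil △ (Y △ (.nil △ .nil)) : BinaryTree Unit) = (.nil △ .nil) △ R := e
      exact absurd (H1.node_inj e').1.symm (by simp)
    · have e' : (.nil △ (Y △ (.nil △ .nil)) : BinaryTree Unit) = R △ (.nil △ .nil) := e
      exact hR (H1.node_inj e').1.symm
    · have e' : (.nil △ (Y △ (.nil △ .nil)) : BinaryTree Unit) = .nil △ (R △ .nil) := e
      exact absurd (H1.node_inj (H1.node_inj e').2).2 (by simp)

/-- **P5R - Cr** (`c` odd, `c >= 3`): never -/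
theorem TyP5RR.dis_Cr (h : TyP5RR R B S F g) (hc : 3 ≤ c) (ht : IsTri .nil Y (H1.ch c) F' g')
    (hYt : c + 1 ≤ OddHC.ht Y) (hd : ∀ c ∈ F, c ∉ F') : ∀ w ∈ g.B, w ∉ g'.B := by
  intro w hw hw'
  have hR := h.sqd.ne
  have hY : Y ≠ .nil := by
    rintro rfl
    have : OddHC.ht (BinaryTree.nil : BinaryTree Unit) = 0 := rfl
    omega
  obtain ⟨c, rfl⟩ : ∃ d, c = d + 3 := ⟨c - 3, by omega⟩
  have chn : ∀ m, H1.ch (m + 1) ≠ .nil := fun m => by rw [H1.ch_succ]; simp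
  rcases tri h ht hd hw hw' with (e | e | e) | ⟨i, hi, e⟩
  · have e' : Y △ H1.ch (c + 3) = (R △ .nil) △ .nil := e
    exact chn _ (H1.node_inj e').2
  · have e' : app Y (H1.ch (c + 3) △ .nil) = (R △ .nil) △ .nil := e
    exact app_prime hY (by simp) e'
  · have e' : app (H1.ch (c + 3)) (.nil △ Y) = (R △ .nil) △ .nil := e
    exact app_prime (chn _) (by simp) e'
  · simp only [List.mem_cons, List.not_mem_nil, or_false] at hi
    rcases hi with rfl | rfl | rfl | rfl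
    · have e' : app (Y △ .nil) (H1.ch (c + 2) △ .nil) = app R ((.nil △ .nil) △ .nil) := e
      have e2 := (H1.app_snoc e').2
      rw [H1.ch_succ] at e2
      exact chn _ (H1.node_inj e2).1
    · have e' : Y △ H1.ch (c + 3) = (.nil △ .nil) △ R := e
      rw [(H1.node_inj e').1] at hYt
      have : OddHC.ht (BinaryTree.nil △ BinaryTree.nil : BinaryTree Unit) = 1 := rfl
      omega
    · have e' : Y △ H1.ch (c + 3) = R △ (.nil △ .nil) := e
      have e2 := (H1.node_inj e').2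
      rw [H1.ch_succ] at e2
      exact chn _ (H1.node_inj e2).1
    · have e' : Y △ H1.ch (c + 3) = .nil △ (R △ .nil) := e
      exact hY (H1.node_inj e').1

/-- **P5R - Cl**: only `c = 2`, `R = (Y)` -/
theorem TyP5RR.dis_Cl (h : TyP5RR R B S F g) (hc : 2 ≤ c) (ht : IsTri (H1.ch c) Y .nil F' g')
    (hYt : c + 1 ≤ OddHC.ht Y) (hx : c = 2 → R ≠ Y △ .nil) (hd : ∀ c ∈ F, c ∉ F') : ∀ w ∈ g.B, w ∉ g'.B := by
  intro w hw hw'
  have hR := h.sqd.ne
  have hY : Y ≠ .nil := by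
    rintro rfl
    have : OddHC.ht (BinaryTree.nil : BinaryTree Unit) = 0 := rfl
    omega
  obtain ⟨c, rfl⟩ : ∃ d, c = d + 2 := ⟨c - 2, by omega⟩
  have chn : ∀ m, H1.ch (m + 1) ≠ .nil := fun m => by rw [H1.ch_succ]; simp
  rcases tri h ht hd hw hw' with (e | e | e) | ⟨i, hi, e⟩
  · have e' : app (H1.ch (c + 2)) (Y △ .nil) = (R △ .nil) △ .nil := e
    exact app_prime (chn _) (by simp) e'
  · have e' : app Y (.nil △ H1.ch (c + 2)) = (R △ .nil) △ .nil := e
    exact app_prime hY (by simp) e'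
  · have e' : (H1.ch (c + 2) △ Y : BinaryTree Unit) = (R △ .nil) △ .nil := e
    exact hY (H1.node_inj e').2
  · have e0 : w1 (H1.ch (c + 2)) Y .nil = H1.ch (c + 1) △ (Y △ .nil) := rfl
    rw [e0] at e
    simp only [List.mem_cons, List.not_mem_nil, or_false] at hi
    rcases hi with rfl | rfl | rfl | rfl
    · have e' : app (H1.ch (c + 1) △ .nil) (Y △ .nil) = app R ((.nil △ .nil) △ .nil) := e
      have e2 := (H1.app_snoc e').2
      rw [e2] at hYt
      have : OddHC.ht (BinaryTree.nil △ BinaryTree.nil : BinaryTree Unit) = 1 := rfl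
      omega
    · have e' : H1.ch (c + 1) △ (Y △ .nil) = (.nil △ .nil) △ R := e
      obtain ⟨e1, e2⟩ := H1.node_inj e'
      rw [H1.ch_succ] at e1
      have e3 : H1.ch c = .nil := (H1.node_inj e1).1
      refine hx ?_ e2.symm
      cases c with
      | zero => rfl
      | succ n => exact absurd e3 (chn _)
    · have e' : H1.ch (c + 1) △ (Y △ .nil) = R △ (.nil △ .nil) := e
      exact hY (H1.node_inj (H1.node_inj e').2).1
    · have e' : H1.ch (c + 1) △ (Y △ .nil) = .nil △ (R △ .nil) := e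
      exact chn _ (H1.node_inj e').1

/-! ### J types -/

theorem TyP5RR.dis_Jt (h : TyP5RR R B S F g) (hk : 13 ≤ k) (h' : J1.TyJt F' g') (hd : ∀ c ∈ F, c ∉ F') :
    ∀ w ∈ g.B, w ∉ g'.B := by
  intro w hw
  obtain ⟨i, hi, e⟩ := h.words w hw
  exact h.sqd.dis_Jt hk h' (w0 := w) (hd _ (h.mem0 w)) hi e

theorem TyP5RR.dis_Js (h : TyP5RR R B S F g) (hk : 11 ≤ k) (h2 : 2 ≤ J3.cc R) (h' : J1.TyJs F' g')
    (hd : ∀ c ∈ F, c ∉ F') : ∀ w ∈ g.B, w ∉ g'.B := by
  intro w hw hw'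
  obtain ⟨i, hi, e⟩ := h.words w hw
  obtain ⟨e1, m, hm, e2⟩ := h.sqd.meetJs hk h' (w0 := w) (hd _ (h.mem0 w)) (h.ne w).1 hw' hi e
  obtain ⟨m, rfl⟩ : ∃ a, m = a + 1 := ⟨m - 1, by omega⟩
  have hc := h.sqd.cont
  rw [e1, e2, H1.ch_cont, H1.ch_cont] at hc
  unfold J3.cc J.c3 at h2
  rw [← hc, Multiset.countP_add] at h2
  have c1 : Multiset.countP (3 ≤ ·) ({1 + 1} : Multiset ℕ) = 0 := by decide
  have c2 : Multiset.countP (3 ≤ ·) ({m + 1} : Multiset ℕ) ≤ 1 := by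
    have := Multiset.countP_le_card (p := (3 ≤ ·)) (s := ({m + 1} : Multiset ℕ))
    simpa using this
  omega

theorem TyP5RR.dis_JG (h : TyP5RR R B S F g) (h4 : 4 ≤ OddHC.ht R) (h2 : 2 ≤ J3.cc R) {n : ℕ}
    (hn : 1 ≤ n) {B' : Finset (X k)} {P U M : Set (ZMod (2 * n + 1) → ℕ)} (hJ : J.JG n B' P U M) :
    ∀ w ∈ g.B, w ∉ B' := by
  intro w hw
  obtain ⟨i, hi, e⟩ := h.words w hw
  exact h.sqd.dis_JG20 h2 h4 hn hJ hi e

theorem TyP5RR.dis_T (h : TyP5RR R B S F g) (h' : TyT F' g') : ∀ w ∈ g.B, w ∉ g'.B := by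
  intro w hw
  obtain ⟨i, hi, e⟩ := h.words w hw
  exact h'.dis20 h.sqd hi e

/-- against any twenty words of another phase (J2B, JV, JE, P5R ..) : never -/
theorem TyP5RR.no20 (h : TyP5RR R B S F g) (h' : SqD k R' B' S') {w0' : X k} (hd : ∀ c ∈ F, c ∉ F')
    (m0' : cyc (sX R' B' S' w0' 0) ∈ F') (m4' : cyc (sX R' B' S' w0' 4) ∈ F') {w : X k} (hw : w ∈ g.B)
    {j : ℕ} (hj : j < 20) (e : w.1 = H1.W R' .nil B' S' j) : False := by
  obtain ⟨i, hi, e1⟩ := h.words5 w hw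
  have hi' : i < 20 ∧ i ≠ 15 ∧ i ≠ 12 ∧ i ≠ 17 ∧ i ≠ 18 ∧ i ≠ 16 ∧ i ≠ 19 :=
    (by decide : ∀ i ∈ [0, 4, 6, 8, 9], i < 20 ∧ i ≠ 15 ∧ i ≠ 12 ∧ i ≠ 17 ∧ i ≠ 18 ∧ i ≠ 16 ∧ i ≠ 19) i hi
  rcases h.sqd.meetF h' (w0 := w) (w0' := w0') hd (h.mem0 w) (h.mem4 w) m0' m4' hi'.1 hj (e1.symm.trans e) with k1 | k1
  · omega
  · omega

theorem TyP5RR.dis_J2 (h : TyP5RR R B S F g) (h' : TyJ2R R' B' S' F' g') (hd : ∀ c ∈ F, c ∉ F') :
    ∀ w ∈ g.B, w ∉ g'.B := by
  intro w hw hw'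
  obtain ⟨j, hj, e'⟩ := h'.words w hw'
  exact h.no20 h'.sqd hd ((h'.memF w _).2 (Or.inl rfl)) ((h'.memF w _).2 (Or.inr rfl)) hw hj e'

theorem TyP5RR.dis_P5R (h : TyP5RR R B S F g) (h' : TyP5RR R' B' S' F' g') (hd : ∀ c ∈ F, c ∉ F') :
    ∀ w ∈ g.B, w ∉ g'.B := by
  intro w hw hw'
  obtain ⟨j, hj, e'⟩ := h'.words w hw'
  exact h.no20 h'.sqd hd (h'.mem0 w) (h'.mem4 w) hw hj e'

theorem TyP5RR.dis_JE (h : TyP5RR R B S F g) (h' : TyJE R' F' g') (hd : ∀ c ∈ F, c ∉ F') :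
    ∀ w ∈ g.B, w ∉ g'.B := by
  intro w hw hw'
  obtain ⟨B', S', w0', h1', hp', hB', hF', _⟩ := h'.inn
  obtain ⟨j, hj, e'⟩ := hB' w hw'
  have j1 : j < 20 := (by decide : ∀ i ∈ ixG13, i < 20) j hj
  have m0' : ∀ i ∈ [0, 4], cyc (sX R' B' S' w0' i) ∈ F' := fun i hi => by
    rw [hF']; exact ⟨i, (by decide : ∀ i ∈ [0, 4], i ∈ nwG13) i hi, rfl⟩
  have e2 := congrArg Subtype.val e'
  rw [h1'.word w0' j1] at e2
  exact h.no20 h1' hd (m0' 0 (by simp)) (m0' 4 (by simp)) hw j1 e2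

theorem TyP5RR.dis_JV (h : TyP5RR R B S F g) (h' : Is9 .nil .nil R' F' g') (h1' : (OddHC.cont R').count 1 = 0)
    (h3' : 3 ≤ OddHC.ht R') (hd : ∀ c ∈ F, c ∉ F') : ∀ w ∈ g.B, w ∉ g'.B := by
  intro w hw hw'
  obtain ⟨v, hD, hF', rfl⟩ := h'
  have hq := hD.sqD h1' h3'
  obtain ⟨j, hj, rfl⟩ := mem_gad9.1 hw'
  have j1 : ix9E j < 20 := (by decide : ∀ i < 9, ix9E i < 20) j hj
  have v0 : v 0 = sX R' (Tsq.sq R').2 (Tsq.sq R').1 (v 0) 0 :=
    Subtype.ext (by rw [hq.word _ (by norm_num)]; exact hD.wordE 0 (by norm_num))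
  have v1 : v 1 = sX R' (Tsq.sq R').2 (Tsq.sq R').1 (v 0) 4 :=
    Subtype.ext (by rw [hq.word _ (by norm_num)]; exact hD.wordE 1 (by norm_num))
  have m0' : cyc (sX R' (Tsq.sq R').2 (Tsq.sq R').1 (v 0) 0) ∈ F' := by rw [hF', ← v0]; exact Or.inl rfl
  have m4' : cyc (sX R' (Tsq.sq R').2 (Tsq.sq R').1 (v 0) 4) ∈ F' := by rw [hF', ← v1]; exact Or.inr rfl
  exact h.no20 hq hd m0' m4' hw j1 (hD.wordE j hj)

/-! ### Windows (helper16's `Con`) -/

theorem TyP5RR.w_Rq (h : TyP5RR R B S F g) (h' : TyRq q F' g')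
    (hx : ∀ R' B' S' w0, HM.NodeM k q R' B' S' → g' = gad20 (H1.wX R' B' S' q w0) →
      ¬ MV.Con q R B S R' B' S') : ∀ w ∈ g.B, w ∉ g'.B := by
  obtain ⟨R', B', S', w0, h4, -, rfl, rfl⟩ := h'
  intro w hw hw'
  obtain ⟨i, hi, e⟩ := h.words w hw
  obtain ⟨j, hj, rfl⟩ := mem_gad20.1 hw'
  rw [H1.wX_eq h4.dat h4.size w0 hj] at e
  exact hx R' B' S' w0 h4 rfl (MV.win0 h.sqd (MV.WD.ofM h4) hi hj e.symm)

theorem TyP5RR.w_Sq (h : TyP5RR R B S F g) (h' : TySq q F' g')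
    (hx : ∀ R' B' S' w0, HM.NodeM k q R' B' S' → g' = gadS (H1.wX R' B' S' q w0) →
      ¬ MV.Con q R B S R' B' S') : ∀ w ∈ g.B, w ∉ g'.B := by
  obtain ⟨R', B', S', w0, h4, -, -, -, rfl, rfl⟩ := h'
  intro w hw hw'
  obtain ⟨i, hi, e⟩ := h.words w hw
  obtain ⟨j, hj, -, rfl⟩ := memR_gadS.1 hw'
  rw [H1.wX_eq h4.dat h4.size w0 hj] at e
  exact hx R' B' S' w0 h4 rfl (MV.win0 h.sqd (MV.WD.ofM h4) hi hj e.symm)

end Pool.OddHC
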